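import Mathlib

set_option autoImplicit false

open Finset

namespace Pool.Agent.R579.CD

/-- index set: ray `inl n`, chains `inr (l, i)` -/
abbrev Om := ℕ ⊕ (ℕ × ℕ)

variable (𝕜 : Type) [RCLike 𝕜]

abbrev V := Om →₀ 𝕜

noncomputable def xx (n : ℕ) : V 𝕜 := Finsupp.single (Sum.inl n) 1
noncomputable def cc (l i : ℕ) : V 𝕜 := Finsupp.single (Sum.inr (l, i)) 1

/-- vectors with coordinates in a countable dense set, indexed by `Om →₀ ℕ` -/
noncomputable def toV (g : Om →₀ ℕ) : V 𝕜 :=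
  g.mapRange (fun k => if k = 0 then 0 else TopologicalSpace.denseSeq 𝕜 (k - 1)) (by simp)

noncomputable def enum : ℕ → (Om →₀ ℕ) := (exists_surjective_nat (Om →₀ ℕ)).choose

lemma enum_surj : Function.Surjective enum := (exists_surjective_nat (Om →₀ ℕ)).choose_spec

/-- enumeration, each vector infinitely often -/
noncomputable def dseq (l : ℕ) : V 𝕜 := toV 𝕜 (enum (Nat.unpair l).1)

lemma dseq_hit (g : Om →₀ ℕ) (J : ℕ) : ∃ l, J ≤ l ∧ dseq 𝕜 l = toV 𝕜 g := by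
  obtain ⟨a, ha⟩ := enum_surj g
  refine ⟨Nat.pair a J, Nat.right_le_pair a J, ?_⟩
  rw [dseq, Nat.unpair_pair, ha]

variable {𝕜}

def LowRows (l : ℕ) (u : V 𝕜) : Prop := ∀ l' i, u (Sum.inr (l', i)) ≠ 0 → l' < l

variable (𝕜)

open Classical in
noncomputable def vv (l : ℕ) : V 𝕜 := if LowRows l (dseq 𝕜 l) then dseq 𝕜 l else 0

lemma vv_lowRows (l : ℕ) : LowRows l (vv 𝕜 l) := by
  unfold vv
  split_ifs with h
  · exact h
  · intro l' i hi
    simp at hi

lemma vv_hit (g : Om →₀ ℕ) (J : ℕ) : ∃ l, J ≤ l ∧ vv 𝕜 l = toV 𝕜 g := by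
  classical
  obtain ⟨J', hJ'⟩ : ∃ J' : ℕ, ∀ l i, toV 𝕜 g (Sum.inr (l, i)) ≠ 0 → l < J' := by
    refine ⟨((toV 𝕜 g).support.sup fun ω => match ω with
      | Sum.inl _ => 0
      | Sum.inr (l, _) => l) + 1, ?_⟩
    intro l i hli
    have h1 : (Sum.inr (l, i) : Om) ∈ (toV 𝕜 g).support := Finsupp.mem_support_iff.2 hli
    have h2 := Finset.le_sup (f := fun ω : Om => match ω with
      | Sum.inl _ => 0
      | Sum.inr (l, _) => l) h1
    simp only at h2
    omega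
  obtain ⟨l, hl, hl'⟩ := dseq_hit 𝕜 g (max J J')
  refine ⟨l, (le_max_left _ _).trans hl, ?_⟩
  rw [vv, if_pos, hl']
  intro l' i hi
  rw [hl'] at hi
  exact (hJ' l' i hi).trans_le ((le_max_right _ _).trans hl)

noncomputable def tt : Om → V 𝕜
  | Sum.inl n => xx 𝕜 (n + 1)
  | Sum.inr (l, 0) => vv 𝕜 l
  | Sum.inr (l, i + 1) => cc 𝕜 l i

noncomputable def TT : Module.End 𝕜 (V 𝕜) := Finsupp.linearCombination 𝕜 (tt 𝕜)

lemma TT_single (ω : Om) : TT 𝕜 (Finsupp.single ω 1) = tt 𝕜 ω := by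
  simp [TT]

lemma TT_xx (n : ℕ) : TT 𝕜 (xx 𝕜 n) = xx 𝕜 (n + 1) := by
  rw [xx, TT_single]; rfl

lemma TT_cc_succ (l i : ℕ) : TT 𝕜 (cc 𝕜 l (i + 1)) = cc 𝕜 l i := by
  rw [cc, TT_single]; rfl

lemma TT_cc_zero (l : ℕ) : TT 𝕜 (cc 𝕜 l 0) = vv 𝕜 l := by
  rw [cc, TT_single]; rfl

lemma pow_xx (k n : ℕ) : (TT 𝕜 ^ k) (xx 𝕜 n) = xx 𝕜 (n + k) := by
  induction k generalizing n with
  | zero => simp
  | succ k ih =>
    rw [pow_succ, Module.End.mul_apply, TT_xx, ih]
    congr 1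
    omega

lemma pow_cc_le (k l i : ℕ) (h : k ≤ i) : (TT 𝕜 ^ k) (cc 𝕜 l i) = cc 𝕜 l (i - k) := by
  induction k generalizing i with
  | zero => simp
  | succ k ih =>
    obtain ⟨i', rfl⟩ : ∃ i', i = i' + 1 := ⟨i - 1, by omega⟩
    rw [pow_succ, Module.End.mul_apply, TT_cc_succ, ih _ (by omega)]
    congr 1
    omega

lemma pow_cc_gt (k l i : ℕ) : (TT 𝕜 ^ (i + 1 + k)) (cc 𝕜 l i) = (TT 𝕜 ^ k) (vv 𝕜 l) := by
  have : i + 1 + k = k + 1 + i := by omega
  rw [this, pow_add, Module.End.mul_apply, pow_cc_le 𝕜 i l i le_rfl, Nat.sub_self, pow_succ,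
    Module.End.mul_apply, TT_cc_zero]

variable {𝕜}

/-- no chain coordinates -/
def InW (u : V 𝕜) : Prop := ∀ p, u (Sum.inr p) = 0

lemma TT_apply (u : V 𝕜) (ω : Om) : TT 𝕜 u ω = u.sum fun ω' a => a * tt 𝕜 ω' ω := by
  rw [TT, Finsupp.linearCombination_apply, Finsupp.sum_apply]
  rfl

lemma InW.step {u : V 𝕜} (h : InW u) : InW (TT 𝕜 u) := by
  intro p
  rw [TT_apply]
  apply Finset.sum_eq_zero
  intro ω _
  rcases ω with n | q
  · simp only
    have : tt 𝕜 (Sum.inl n) (Sum.inr p) = 0 := by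
      simp [tt, xx]
    rw [this, mul_zero]
  · simp only
    rw [h q, zero_mul]

lemma InW.pow {u : V 𝕜} (h : InW u) (k : ℕ) : InW ((TT 𝕜 ^ k) u) := by
  induction k with
  | zero => simpa using h
  | succ k ih =>
    rw [pow_succ', Module.End.mul_apply]
    exact ih.step

lemma InW.step_inl {u : V 𝕜} (h : InW u) (n : ℕ) :
    TT 𝕜 u (Sum.inl n) = if 1 ≤ n then u (Sum.inl (n - 1)) else 0 := by
  classical
  rw [TT_apply]
  have h1 : ∀ ω ∈ u.support, u ω * tt 𝕜 ω (Sum.inl n) =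
      if ω = Sum.inl (n - 1) ∧ 1 ≤ n then u (Sum.inl (n - 1)) else 0 := by
    intro ω _
    rcases ω with m | q
    · have h2 : tt 𝕜 (Sum.inl m) (Sum.inl n) = if m + 1 = n then 1 else 0 := by
        simp [tt, xx, Finsupp.single_apply]
      rw [h2]
      by_cases hmn : m + 1 = n
      · rw [if_pos hmn, if_pos ⟨by rw [← hmn]; rfl, by omega⟩, mul_one, ← hmn]
        rfl
      · rw [if_neg hmn, mul_zero, if_neg]
        rintro ⟨h3, h4⟩
        simp only [Sum.inl.injEq] at h3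
        omega
    · rw [h q, zero_mul, if_neg]
      rintro ⟨h3, -⟩
      exact absurd h3 (by simp)
  rw [Finsupp.sum, Finset.sum_congr rfl h1]
  by_cases hn : 1 ≤ n
  · rw [if_pos hn]
    by_cases hs : (Sum.inl (n - 1) : Om) ∈ u.support
    · rw [Finset.sum_eq_single (Sum.inl (n - 1))]
      · rw [if_pos ⟨rfl, hn⟩]
      · intro b _ hb
        rw [if_neg (fun h => hb h.1)]
      · intro h; exact absurd hs h
    · rw [Finsupp.notMem_support_iff.1 hs]
      simp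
  · rw [if_neg hn]
    apply Finset.sum_eq_zero
    intro ω _
    rw [if_neg (fun h => hn h.2)]

lemma InW.pow_inl {u : V 𝕜} (h : InW u) (s n : ℕ) :
    (TT 𝕜 ^ s) u (Sum.inl n) = if s ≤ n then u (Sum.inl (n - s)) else 0 := by
  induction s generalizing n with
  | zero => simp
  | succ s ih =>
    rw [pow_succ', Module.End.mul_apply, (h.pow s).step_inl, ih]
    by_cases h1 : s + 1 ≤ n
    · rw [if_pos h1, if_pos (by omega), if_pos (by omega)]
      congr 2
      omega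
    · rw [if_neg h1]
      by_cases h2 : 1 ≤ n
      · rw [if_pos h2, if_neg (by omega)]
      · rw [if_neg h2]

def Hb (h : ℕ) (y : V 𝕜) : Prop := ∀ t n, (TT 𝕜 ^ t) y (Sum.inl n) ≠ 0 → n ≤ h + t

def Good (y : V 𝕜) : Prop := (∃ M, InW ((TT 𝕜 ^ M) y)) ∧ ∃ h, Hb h y

lemma good_zero : Good (0 : V 𝕜) := by
  refine ⟨⟨0, ?_⟩, 0, ?_⟩
  · intro p; simp
  · intro t n h; simp at h

lemma Good.add {a b : V 𝕜} (ha : Good a) (hb : Good b) : Good (a + b) := by
  obtain ⟨⟨M, hM⟩, h, hh⟩ := ha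
  obtain ⟨⟨M', hM'⟩, h', hh'⟩ := hb
  refine ⟨⟨M + M', ?_⟩, max h h', ?_⟩
  · intro p
    have h1 : (TT 𝕜 ^ (M + M')) a = (TT 𝕜 ^ M') ((TT 𝕜 ^ M) a) := by
      rw [add_comm, pow_add, Module.End.mul_apply]
    have h2 : (TT 𝕜 ^ (M + M')) b = (TT 𝕜 ^ M) ((TT 𝕜 ^ M') b) := by
      rw [pow_add, Module.End.mul_apply]
    rw [map_add, Finsupp.add_apply, h1, h2, hM.pow M' p, hM'.pow M p, add_zero]
  · intro t n hn
    rw [map_add, Finsupp.add_apply] at hn
    by_cases h1 : (TT 𝕜 ^ t) a (Sum.inl n) = 0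
    · rw [h1, zero_add] at hn
      exact (hh' t n hn).trans (by gcongr; exact le_max_right _ _)
    · exact (hh t n h1).trans (by gcongr; exact le_max_left _ _)

lemma Good.smul {a : V 𝕜} (ha : Good a) (c : 𝕜) : Good (c • a) := by
  obtain ⟨⟨M, hM⟩, h, hh⟩ := ha
  refine ⟨⟨M, ?_⟩, h, ?_⟩
  · intro p
    rw [map_smul, Finsupp.smul_apply, hM p, smul_zero]
  · intro t n hn
    rw [map_smul, Finsupp.smul_apply] at hn
    exact hh t n (fun h0 => hn (by rw [h0, smul_zero]))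

lemma good_of_support (y : V 𝕜) (hy : ∀ ω ∈ y.support, Good (Finsupp.single ω (1 : 𝕜))) :
    Good y := by
  classical
  have h1 : y = ∑ ω ∈ y.support, y ω • (Finsupp.single ω (1 : 𝕜)) := by
    conv_lhs => rw [← Finsupp.sum_single y]
    rw [Finsupp.sum]
    apply Finset.sum_congr rfl
    intro ω _
    rw [Finsupp.smul_single, smul_eq_mul, mul_one]
  rw [h1]
  have h2 : ∀ s : Finset Om, (∀ ω ∈ s, Good (Finsupp.single ω (1 : 𝕜))) →
      Good (∑ ω ∈ s, y ω • (Finsupp.single ω (1 : 𝕜))) := by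
    intro s
    induction s using Finset.induction_on with
    | empty => intro _; simpa using good_zero
    | insert a s ha ih =>
      intro h
      rw [Finset.sum_insert ha]
      exact (Good.smul (h a (Finset.mem_insert_self _ _)) _).add
        (ih fun ω hω => h ω (Finset.mem_insert_of_mem hω))
  exact h2 _ hy

lemma good_xx (n : ℕ) : Good (xx 𝕜 n) := by
  refine ⟨⟨0, ?_⟩, n, ?_⟩
  · intro p
    simp [xx]
  · intro t m hm
    rw [pow_xx] at hm
    by_contra hcon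
    apply hm
    rw [xx, Finsupp.single_apply, if_neg]
    simp only [Sum.inl.injEq]
    omega

lemma Hb_cc (l i h : ℕ) (hv : Hb h (vv 𝕜 l)) : Hb h (cc 𝕜 l i) := by
  intro t n hn
  by_cases ht : t ≤ i
  · rw [pow_cc_le 𝕜 t l i ht] at hn
    simp [cc] at hn
  · obtain ⟨k, rfl⟩ : ∃ k, t = i + 1 + k := ⟨t - i - 1, by omega⟩
    rw [pow_cc_gt] at hn
    have := hv k n hn
    omega

lemma good_cc (l i : ℕ) : Good (cc 𝕜 l i) := by
  induction l using Nat.strong_induction_on generalizing i with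
  | _ l ih =>
    have hv : Good (vv 𝕜 l) := by
      apply good_of_support
      intro ω hω
      rcases ω with n | ⟨l', i'⟩
      · exact good_xx n
      · exact ih l' (vv_lowRows 𝕜 l l' i' (Finsupp.mem_support_iff.1 hω)) i'
    obtain ⟨⟨M, hM⟩, h, hh⟩ := hv
    refine ⟨⟨i + 1 + M, ?_⟩, h, Hb_cc l i h hh⟩
    rw [pow_cc_gt]
    exact hM

lemma good_all (y : V 𝕜) : Good y := by
  apply good_of_support
  intro ω _
  rcases ω with n | ⟨l, i⟩
  · exact good_xx n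
  · exact good_cc l i

end Pool.Agent.R579.CD
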