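import Mathlib
import Pool.Agent.R579.CDAlg

set_option autoImplicit false

open Finset

namespace Pool.Agent.R579.CD

variable (𝕜 : Type) [RCLike 𝕜]

noncomputable def MM (j : ℕ) : ℕ := (good_all (vv 𝕜 j)).1.choose
noncomputable def hh (j : ℕ) : ℕ := (good_all (vv 𝕜 j)).2.choose

lemma MM_spec (j : ℕ) : InW ((TT 𝕜 ^ MM 𝕜 j) (vv 𝕜 j)) := (good_all (vv 𝕜 j)).1.choose_spec
lemma hh_spec (j : ℕ) : Hb (hh 𝕜 j) (vv 𝕜 j) := (good_all (vv 𝕜 j)).2.choose_spec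

noncomputable def KK (j : ℕ) : ℕ := hh 𝕜 j + MM 𝕜 j

noncomputable def gg (j : ℕ) : ℕ := MM 𝕜 j + hh 𝕜 j + KK 𝕜 j + 2

/-- number of visits of task `j` -/
def RR (j : ℕ) : ℕ := (j + 1) ^ 2

lemma RR_pos (j : ℕ) : 1 ≤ RR j := Nat.one_le_iff_ne_zero.2 (by simp [RR])

noncomputable def UU : ℕ → ℕ
  | 0 => gg 𝕜 0
  | j + 1 => UU j * 2 ^ (RR j + 1) + gg 𝕜 (j + 1)

/-- injection time -/
noncomputable def nn (j : ℕ) : ℕ := UU 𝕜 j * 2 ^ RR j
/-- reset time -/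
noncomputable def mm (j : ℕ) : ℕ := UU 𝕜 j * 2 ^ (RR j + 1)

lemma gg_le_UU (j : ℕ) : gg 𝕜 j ≤ UU 𝕜 j := by
  cases j with
  | zero => exact le_rfl
  | succ j => rw [UU]; omega

lemma two_le_UU (j : ℕ) : 2 ≤ UU 𝕜 j := by
  have := gg_le_UU 𝕜 j
  unfold gg at this
  omega

lemma UU_le_nn (j : ℕ) : UU 𝕜 j ≤ nn 𝕜 j := by
  unfold nn
  exact Nat.le_mul_of_pos_right _ (by positivity)

lemma mm_eq (j : ℕ) : mm 𝕜 j = 2 * nn 𝕜 j := by
  unfold mm nn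
  ring

lemma nn_lt_mm (j : ℕ) : nn 𝕜 j < mm 𝕜 j := by
  have h1 := UU_le_nn 𝕜 j
  have h2 := two_le_UU 𝕜 j
  rw [mm_eq]
  omega

lemma mm_succ (j : ℕ) : mm 𝕜 j + gg 𝕜 (j + 1) = UU 𝕜 (j + 1) := rfl

lemma mm_lt_UU_succ (j : ℕ) : mm 𝕜 j + 1 < UU 𝕜 (j + 1) := by
  have := mm_succ 𝕜 j
  have h2 : 2 ≤ gg 𝕜 (j + 1) := by unfold gg; omega
  omega

lemma mm_strictMono : StrictMono (mm 𝕜) := by
  apply strictMono_nat_of_lt_succ
  intro j
  have h1 := mm_lt_UU_succ 𝕜 j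
  have h2 := UU_le_nn 𝕜 (j + 1)
  have h3 := nn_lt_mm 𝕜 (j + 1)
  omega

lemma mm_lt_nn {i j : ℕ} (h : i < j) : mm 𝕜 i + 1 < nn 𝕜 j := by
  obtain ⟨k, rfl⟩ : ∃ k, j = k + 1 := ⟨j - 1, by omega⟩
  have h1 := mm_lt_UU_succ 𝕜 k
  have h2 := UU_le_nn 𝕜 (k + 1)
  have h3 : mm 𝕜 i ≤ mm 𝕜 k := (mm_strictMono 𝕜).monotone (by omega)
  omega

lemma nn_strictMono : StrictMono (nn 𝕜) := by
  intro i j h
  have := mm_lt_nn 𝕜 h
  have := nn_lt_mm 𝕜 i
  omega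

lemma le_mm (j : ℕ) : j ≤ mm 𝕜 j := (mm_strictMono 𝕜).le_apply

/-- the injected vector of task `j` -/
noncomputable def YY (j : ℕ) : V 𝕜 := ∑ r ∈ range (RR j), cc 𝕜 j (UU 𝕜 j * 2 ^ r - 1)

def Act (n j : ℕ) : Prop := nn 𝕜 j < n ∧ n ≤ mm 𝕜 j

lemma act_unique {n i j : ℕ} (hi : Act 𝕜 n i) (hj : Act 𝕜 n j) : i = j := by
  rcases lt_trichotomy i j with h | h | h
  · have := mm_lt_nn 𝕜 h
    have := hi.2
    have := hj.1
    omega
  · exact h
  · have := mm_lt_nn 𝕜 h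
    have := hi.1
    have := hj.2
    omega

open Classical in
noncomputable def yy (n : ℕ) : V 𝕜 :=
  if h : ∃ j, Act 𝕜 n j then (TT 𝕜 ^ (n - nn 𝕜 h.choose - 1)) (YY 𝕜 h.choose) else 0

lemma yy_act {n j : ℕ} (h : Act 𝕜 n j) : yy 𝕜 n = (TT 𝕜 ^ (n - nn 𝕜 j - 1)) (YY 𝕜 j) := by
  have h' : ∃ j, Act 𝕜 n j := ⟨j, h⟩
  rw [yy, dif_pos h', act_unique 𝕜 h'.choose_spec h]

lemma yy_rest {n : ℕ} (h : ∀ j, ¬ Act 𝕜 n j) : yy 𝕜 n = 0 := by
  rw [yy, dif_neg]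
  rintro ⟨j, hj⟩
  exact h j hj

lemma yy_rest' {n j : ℕ} (h1 : ∀ i < j, mm 𝕜 i < n) (h2 : n ≤ nn 𝕜 j) : yy 𝕜 n = 0 := by
  apply yy_rest
  intro i hi
  rcases lt_or_ge i j with h | h
  · have := h1 i h
    have := hi.2
    omega
  · have := (nn_strictMono 𝕜).monotone h
    have := hi.1
    omega

lemma sum_apply_ne {ι : Type} (s : Finset ι) (f : ι → V 𝕜) (ω : Om)
    (h : (∑ i ∈ s, f i) ω ≠ 0) : ∃ i ∈ s, f i ω ≠ 0 := by
  by_contra hcon
  push Not at hcon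
  apply h
  rw [Finsupp.finsetSum_apply]
  exact Finset.sum_eq_zero hcon

lemma yy_lt {n k : ℕ} (h : yy 𝕜 n (Sum.inl k) ≠ 0) : k < n := by
  by_cases ha : ∃ j, Act 𝕜 n j
  · obtain ⟨j, hj⟩ := ha
    rw [yy_act 𝕜 hj, YY, map_sum] at h
    obtain ⟨r, -, hr⟩ := sum_apply_ne 𝕜 _ _ _ h
    have h1 := Hb_cc j _ _ (hh_spec 𝕜 j) _ _ hr
    have h2 := gg_le_UU 𝕜 j
    have h3 := UU_le_nn 𝕜 j
    have h4 := hj.1
    unfold gg at h2
    omega
  · rw [yy_rest 𝕜 (fun j hj => ha ⟨j, hj⟩)] at h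
    simp at h

noncomputable def nt : Om → V 𝕜
  | Sum.inl n => yy 𝕜 n
  | Sum.inr _ => 0

noncomputable def NN : Module.End 𝕜 (V 𝕜) := Finsupp.linearCombination 𝕜 (nt 𝕜)

lemma NN_apply (u : V 𝕜) (ω : Om) : NN 𝕜 u ω = ∑ ω' ∈ u.support, u ω' * nt 𝕜 ω' ω := by
  rw [NN, Finsupp.linearCombination_apply, Finsupp.sum_apply]
  rfl

lemma NN_xx (n : ℕ) : NN 𝕜 (xx 𝕜 n) = yy 𝕜 n := by
  simp [NN, xx, nt]

lemma NN_cc (l i : ℕ) : NN 𝕜 (cc 𝕜 l i) = 0 := by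
  simp [NN, cc, nt]

lemma NN_nilp (d : ℕ) (u : V 𝕜) (h : ∀ k, d ≤ k → u (Sum.inl k) = 0) :
    (NN 𝕜 ^ (d + 1)) u = 0 := by
  induction d generalizing u with
  | zero =>
    rw [zero_add, pow_one]
    ext ω
    rw [NN_apply]
    apply Finset.sum_eq_zero
    intro ω' _
    rcases ω' with n | q
    · rw [h n (Nat.zero_le _), zero_mul]
    · simp [nt]
  | succ d ih =>
    rw [pow_succ, Module.End.mul_apply]
    apply ih
    intro k hk
    rw [NN_apply]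
    apply Finset.sum_eq_zero
    intro ω' _
    rcases ω' with n | q
    · by_cases hn : d + 1 ≤ n
      · rw [h n hn, zero_mul]
      · have : yy 𝕜 n (Sum.inl k) = 0 := by
          by_contra hcon
          have := yy_lt 𝕜 hcon
          omega
        simp only [nt]
        rw [this, mul_zero]
    · simp [nt]

lemma NN_locally_nilpotent (u : V 𝕜) : ∃ k, (NN 𝕜 ^ k) u = 0 := by
  classical
  refine ⟨_, NN_nilp 𝕜 ((u.support.sup fun ω => match ω with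
      | Sum.inl n => n
      | Sum.inr _ => 0) + 1) u ?_⟩
  intro k hk
  by_contra hcon
  have h1 : (Sum.inl k : Om) ∈ u.support := Finsupp.mem_support_iff.2 hcon
  have h2 := Finset.le_sup (f := fun ω : Om => match ω with
      | Sum.inl n => n
      | Sum.inr _ => 0) h1
  simp only at h2
  omega

lemma psi_bijective : Function.Bijective (1 - NN 𝕜 : Module.End 𝕜 (V 𝕜)) := by
  constructor
  · rw [injective_iff_map_eq_zero]
    intro u hu
    have h1 : NN 𝕜 u = u := by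
      rw [LinearMap.sub_apply, Module.End.one_apply, sub_eq_zero] at hu
      exact hu.symm
    obtain ⟨k, hk⟩ := NN_locally_nilpotent 𝕜 u
    have h2 : ∀ k, (NN 𝕜 ^ k) u = u := by
      intro k
      induction k with
      | zero => simp
      | succ k ih => rw [pow_succ, Module.End.mul_apply, h1, ih]
    rw [← h2 k, hk]
  · intro u
    obtain ⟨k, hk⟩ := NN_locally_nilpotent 𝕜 u
    refine ⟨(∑ i ∈ range k, NN 𝕜 ^ i) u, ?_⟩
    have h1 : (1 - NN 𝕜 : Module.End 𝕜 (V 𝕜)) * (∑ i ∈ range k, NN 𝕜 ^ i) = 1 - NN 𝕜 ^ k :=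
      mul_neg_geom_sum (NN 𝕜) k
    have h2 := congrArg (fun f : Module.End 𝕜 (V 𝕜) => f u) h1
    simp only [Module.End.mul_apply] at h2
    rw [h2, LinearMap.sub_apply, hk, sub_zero]
    rfl

/-- change of basis -/
noncomputable def psi : V 𝕜 ≃ₗ[𝕜] V 𝕜 := LinearEquiv.ofBijective _ (psi_bijective 𝕜)

lemma psi_apply (u : V 𝕜) : psi 𝕜 u = u - NN 𝕜 u := rfl

lemma psi_xx (n : ℕ) : psi 𝕜 (xx 𝕜 n) = xx 𝕜 n - yy 𝕜 n := by
  rw [psi_apply, NN_xx]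

lemma psi_cc (l i : ℕ) : psi 𝕜 (cc 𝕜 l i) = cc 𝕜 l i := by
  rw [psi_apply, NN_cc, sub_zero]

lemma psi_symm_cc (l i : ℕ) : (psi 𝕜).symm (cc 𝕜 l i) = cc 𝕜 l i := by
  rw [LinearEquiv.symm_apply_eq, psi_cc]

lemma psi_symm_xx (n : ℕ) : (psi 𝕜).symm (xx 𝕜 n) = xx 𝕜 n + (psi 𝕜).symm (yy 𝕜 n) := by
  rw [LinearEquiv.symm_apply_eq, map_add, LinearEquiv.apply_symm_apply, psi_xx]
  abel

/-- the operator in the new coordinates -/
noncomputable def SS : Module.End 𝕜 (V 𝕜) :=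
  (psi 𝕜).symm.toLinearMap ∘ₗ TT 𝕜 ∘ₗ (psi 𝕜).toLinearMap

lemma SS_apply (u : V 𝕜) : SS 𝕜 u = (psi 𝕜).symm (TT 𝕜 (psi 𝕜 u)) := rfl

lemma SS_pow_apply (k : ℕ) (u : V 𝕜) :
    (SS 𝕜 ^ k) u = (psi 𝕜).symm ((TT 𝕜 ^ k) (psi 𝕜 u)) := by
  induction k generalizing u with
  | zero => simp
  | succ k ih =>
    rw [pow_succ, Module.End.mul_apply, ih, SS_apply, LinearEquiv.apply_symm_apply, pow_succ,
      Module.End.mul_apply]

def nx : Om → Om
  | Sum.inl n => Sum.inl (n + 1)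
  | Sum.inr (l, i) => Sum.inr (l, i - 1)

def Ex : Om → Prop
  | Sum.inl n => ∃ j, n = nn 𝕜 j ∨ n = mm 𝕜 j
  | Sum.inr (_, i) => i = 0

lemma SS_single (ω : Om) (h : ¬ Ex 𝕜 ω) :
    SS 𝕜 (Finsupp.single ω 1) = Finsupp.single (nx ω) 1 := by
  rcases ω with n | ⟨l, i⟩
  · have hn : ∀ j, n ≠ nn 𝕜 j ∧ n ≠ mm 𝕜 j := by
      intro j
      constructor
      · intro h'; exact h ⟨j, Or.inl h'⟩
      · intro h'; exact h ⟨j, Or.inr h'⟩
    have key : TT 𝕜 (yy 𝕜 n) = yy 𝕜 (n + 1) := by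
      by_cases ha : ∃ j, Act 𝕜 n j
      · obtain ⟨j, hj⟩ := ha
        have hj' : Act 𝕜 (n + 1) j := by
          have h1 := hj.1
          have h2 := hj.2
          have h3 := (hn j).2
          exact ⟨by omega, by omega⟩
        rw [yy_act 𝕜 hj, yy_act 𝕜 hj', ← Module.End.mul_apply, ← pow_succ']
        have := hj.1
        congr 2
        omega
      · rw [yy_rest 𝕜 (fun j hj => ha ⟨j, hj⟩), yy_rest 𝕜, map_zero]
        intro j hj
        apply ha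
        refine ⟨j, ?_⟩
        have h1 := hj.1
        have h2 := hj.2
        have h3 := (hn j).1
        exact ⟨by omega, by omega⟩
    have h1 : SS 𝕜 (xx 𝕜 n) = xx 𝕜 (n + 1) := by
      rw [SS_apply, LinearEquiv.symm_apply_eq, psi_xx, psi_xx, map_sub, TT_xx, key]
    exact h1
  · have hi : i ≠ 0 := h
    obtain ⟨i', rfl⟩ : ∃ i', i = i' + 1 := ⟨i - 1, by omega⟩
    have h1 : SS 𝕜 (cc 𝕜 l (i' + 1)) = cc 𝕜 l i' := by
      rw [SS_apply, LinearEquiv.symm_apply_eq, psi_cc, psi_cc, TT_cc_succ]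
    exact h1

/-- exhaustion of the index set -/
def InO (k : ℕ) : Om → Prop
  | Sum.inl n => n ≤ mm 𝕜 k
  | Sum.inr (l, i) => l ≤ k ∧ i ≤ mm 𝕜 k

lemma InO_nx {k : ℕ} {ω : Om} (h : InO 𝕜 k ω) : InO 𝕜 (k + 1) (nx ω) := by
  have h0 : mm 𝕜 k < mm 𝕜 (k + 1) := mm_strictMono 𝕜 (by omega)
  rcases ω with n | ⟨l, i⟩
  · show n + 1 ≤ mm 𝕜 (k + 1)
    have : n ≤ mm 𝕜 k := h
    omega
  · show l ≤ k + 1 ∧ i - 1 ≤ mm 𝕜 (k + 1)
    have : l ≤ k ∧ i ≤ mm 𝕜 k := h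
    omega

lemma nx_injOn {ω ω' : Om} (h : ¬ Ex 𝕜 ω) (h' : ¬ Ex 𝕜 ω') (he : nx ω = nx ω') : ω = ω' := by
  rcases ω with n | ⟨l, i⟩ <;> rcases ω' with n' | ⟨l', i'⟩
  · simp only [nx, Sum.inl.injEq] at he
    congr 1
    omega
  · simp [nx] at he
  · simp [nx] at he
  · have h1 : i ≠ 0 := h
    have h2 : i' ≠ 0 := h'
    simp only [nx, Sum.inr.injEq, Prod.mk.injEq] at he
    obtain ⟨rfl, he⟩ := he
    congr 2
    omega

lemma ex_card (k : ℕ) (s : Finset Om) (hs : ∀ ω ∈ s, Ex 𝕜 ω ∧ InO 𝕜 k ω) :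
    s.card ≤ 3 * (k + 1) := by
  classical
  have hsub : s ⊆ ((range (k + 1)).image fun j => (Sum.inl (nn 𝕜 j) : Om)) ∪
      (((range (k + 1)).image fun j => (Sum.inl (mm 𝕜 j) : Om)) ∪
      ((range (k + 1)).image fun j => (Sum.inr (j, 0) : Om))) := by
    intro ω hω
    obtain ⟨h1, h2⟩ := hs ω hω
    rcases ω with n | ⟨l, i⟩
    · obtain ⟨j, hj | hj⟩ := h1
      · apply Finset.mem_union_left
        rw [Finset.mem_image]
        refine ⟨j, ?_, by rw [hj]⟩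
        rw [Finset.mem_range]
        by_contra hcon
        have h3 := mm_lt_nn 𝕜 (show k < j by omega)
        have h4 : n ≤ mm 𝕜 k := h2
        omega
      · apply Finset.mem_union_right
        apply Finset.mem_union_left
        rw [Finset.mem_image]
        refine ⟨j, ?_, by rw [hj]⟩
        rw [Finset.mem_range]
        by_contra hcon
        have h3 := mm_strictMono 𝕜 (show k < j by omega)
        have h4 : n ≤ mm 𝕜 k := h2
        omega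
    · have h3 : i = 0 := h1
      have h4 : l ≤ k ∧ i ≤ mm 𝕜 k := h2
      apply Finset.mem_union_right
      apply Finset.mem_union_right
      rw [Finset.mem_image]
      refine ⟨l, ?_, by rw [h3]⟩
      rw [Finset.mem_range]
      omega
  refine (Finset.card_le_card hsub).trans ?_
  refine (Finset.card_union_le _ _).trans ?_
  have h1 := Finset.card_union_le ((range (k + 1)).image fun j => (Sum.inl (mm 𝕜 j) : Om))
      ((range (k + 1)).image fun j => (Sum.inr (j, 0) : Om))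
  have h2 := Finset.card_image_le (s := range (k + 1)) (f := fun j => (Sum.inl (nn 𝕜 j) : Om))
  have h3 := Finset.card_image_le (s := range (k + 1)) (f := fun j => (Sum.inl (mm 𝕜 j) : Om))
  have h4 := Finset.card_image_le (s := range (k + 1)) (f := fun j => (Sum.inr (j, 0) : Om))
  rw [Finset.card_range] at h2 h3 h4
  omega

/-- small sets -/
def Small (A : Set Om) : Prop :=
  ∃ C : ℕ, ∀ k, ∀ s : Finset Om, (∀ ω ∈ s, ω ∈ A ∧ InO 𝕜 k ω) → s.card ≤ C * (k + 1)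

lemma small_empty : Small 𝕜 ∅ := by
  refine ⟨0, fun k s hs => ?_⟩
  rcases s.eq_empty_or_nonempty with h | ⟨ω, hω⟩
  · simp [h]
  · exact absurd (hs ω hω).1 (by simp)

lemma Small.mono {A B : Set Om} (hB : Small 𝕜 B) (h : A ⊆ B) : Small 𝕜 A := by
  obtain ⟨C, hC⟩ := hB
  exact ⟨C, fun k s hs => hC k s fun ω hω => ⟨h (hs ω hω).1, (hs ω hω).2⟩⟩

lemma small_singleton (ω : Om) : Small 𝕜 {ω} := by
  refine ⟨1, fun k s hs => ?_⟩
  have : s ⊆ {ω} := fun ω' h => by simpa using (hs ω' h).1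
  have := Finset.card_le_card this
  rw [Finset.card_singleton] at this
  omega

lemma Small.union {A B : Set Om} (hA : Small 𝕜 A) (hB : Small 𝕜 B) : Small 𝕜 (A ∪ B) := by
  classical
  obtain ⟨C, hC⟩ := hA
  obtain ⟨C', hC'⟩ := hB
  refine ⟨C + C', fun k s hs => ?_⟩
  have h1 := hC k (s.filter (· ∈ A)) (fun ω hω => by
    rw [Finset.mem_filter] at hω
    exact ⟨hω.2, (hs ω hω.1).2⟩)
  have h2 := hC' k (s.filter (fun ω => ¬ ω ∈ A)) (fun ω hω => by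
    rw [Finset.mem_filter] at hω
    exact ⟨(hs ω hω.1).1.resolve_left hω.2, (hs ω hω.1).2⟩)
  have h3 := Finset.card_filter_add_card_filter_not (s := s) (· ∈ A)
  calc s.card = _ := h3.symm
    _ ≤ C * (k + 1) + C' * (k + 1) := add_le_add h1 h2
    _ = _ := by ring

/-- preimages of small sets under the operator are small -/
lemma Small.pre {A B : Set Om} (hA : Small 𝕜 A)
    (hB : ∀ ω ∈ B, Ex 𝕜 ω ∨ (¬ Ex 𝕜 ω ∧ nx ω ∈ A)) : Small 𝕜 B := by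
  classical
  obtain ⟨C, hC⟩ := hA
  refine ⟨2 * C + 3, fun k s hs => ?_⟩
  have h1 := ex_card 𝕜 k (s.filter (fun ω => Ex 𝕜 ω)) (fun ω hω => by
    rw [Finset.mem_filter] at hω
    exact ⟨hω.2, (hs ω hω.1).2⟩)
  have h2 := hC (k + 1) ((s.filter (fun ω => ¬ Ex 𝕜 ω)).image nx) (fun ω hω => by
    rw [Finset.mem_image] at hω
    obtain ⟨ω', hω', rfl⟩ := hω
    rw [Finset.mem_filter] at hω'
    refine ⟨((hB ω' (hs ω' hω'.1).1).resolve_left hω'.2).2, InO_nx 𝕜 (hs ω' hω'.1).2⟩)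
  rw [Finset.card_image_of_injOn] at h2
  · have h3 := Finset.card_filter_add_card_filter_not (s := s) (fun ω => Ex 𝕜 ω)
    calc s.card = _ := h3.symm
      _ ≤ 3 * (k + 1) + C * (k + 1 + 1) := add_le_add h1 h2
      _ ≤ _ := by nlinarith [Nat.zero_le (C * k), Nat.zero_le C]
  · intro ω hω ω' hω' he
    simp only [Finset.coe_filter, Set.mem_ofPred_eq] at hω hω'
    exact nx_injOn 𝕜 hω.2 hω'.2 he

/-- every finite set lies in some `InO k` -/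
lemma exists_InO (ω : Om) : ∃ k, InO 𝕜 k ω := by
  rcases ω with n | ⟨l, i⟩
  · exact ⟨n, le_mm 𝕜 n⟩
  · refine ⟨max l i, le_max_left _ _, (le_max_right _ _).trans (le_mm 𝕜 _)⟩

lemma InO_mono {k k' : ℕ} (h : k ≤ k') {ω : Om} (hω : InO 𝕜 k ω) : InO 𝕜 k' ω := by
  have h0 := (mm_strictMono 𝕜).monotone h
  rcases ω with n | ⟨l, i⟩
  · exact le_trans (show n ≤ mm 𝕜 k from hω) h0
  · have : l ≤ k ∧ i ≤ mm 𝕜 k := hω
    exact ⟨by omega, by omega⟩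

lemma InO_finite (k : ℕ) : {ω | InO 𝕜 k ω}.Finite := by
  classical
  apply Set.Finite.subset (s := ↑(((range (mm 𝕜 k + 1)).image fun n => (Sum.inl n : Om)) ∪
    (((range (k + 1)) ×ˢ (range (mm 𝕜 k + 1))).image fun p => (Sum.inr p : Om))))
    (Finset.finite_toSet _)
  intro ω hω
  rcases ω with n | ⟨l, i⟩
  · have : n ≤ mm 𝕜 k := hω
    simp only [coe_union, coe_image, Set.mem_union, Set.mem_image, coe_range, Set.mem_Iio]
    left
    exact ⟨n, by omega, rfl⟩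
  · have : l ≤ k ∧ i ≤ mm 𝕜 k := hω
    simp only [Finset.mem_coe, Finset.mem_union, Finset.mem_image, Finset.mem_product,
      Finset.mem_range]
    right
    exact ⟨(l, i), ⟨by show l < k + 1; omega, by show i < _; omega⟩, rfl⟩

end Pool.Agent.R579.CD
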