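import Mathlib
import Pool.Agent.R579.CDBasis

set_option autoImplicit false

open Finset

namespace Pool.Agent.R579.CD

variable (𝕜 : Type) [RCLike 𝕜]

/-- visit times of task `j` -/
noncomputable def vt (j r : ℕ) : ℕ := nn 𝕜 j + 1 + UU 𝕜 j * 2 ^ r

lemma UU_pow_mono (j : ℕ) {r s : ℕ} (h : r ≤ s) : UU 𝕜 j * 2 ^ r ≤ UU 𝕜 j * 2 ^ s :=
  Nat.mul_le_mul_left _ (Nat.pow_le_pow_right (by norm_num) h)

lemma UU_pow_succ (j r : ℕ) : UU 𝕜 j * 2 ^ (r + 1) = 2 * (UU 𝕜 j * 2 ^ r) := by ring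

lemma UU_le_pow (j r : ℕ) : UU 𝕜 j ≤ UU 𝕜 j * 2 ^ r :=
  Nat.le_mul_of_pos_right _ (by positivity)

lemma vt_act (j r : ℕ) (h : r < RR j) : Act 𝕜 (vt 𝕜 j r) j := by
  have h1 := UU_pow_mono 𝕜 j (show r + 1 ≤ RR j from h)
  rw [UU_pow_succ] at h1
  have h2 := UU_le_pow 𝕜 j r
  have h3 := two_le_UU 𝕜 j
  have h4 : mm 𝕜 j = 2 * nn 𝕜 j := mm_eq 𝕜 j
  have h5 : nn 𝕜 j = UU 𝕜 j * 2 ^ RR j := rfl
  constructor
  · unfold vt; omega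
  · unfold vt; omega

/-- junk index set of a visit -/
def JJ (j r : ℕ) : Om → Prop
  | Sum.inl p => p = vt 𝕜 j r ∨ ∃ r' < r,
      UU 𝕜 j * 2 ^ r ≤ p + UU 𝕜 j * 2 ^ r' + MM 𝕜 j ∧
      p + UU 𝕜 j * 2 ^ r' + MM 𝕜 j ≤ UU 𝕜 j * 2 ^ r + KK 𝕜 j
  | Sum.inr (l, i) => l = j ∧ ∃ r', r < r' ∧ r' < RR j ∧
      i + 1 + UU 𝕜 j * 2 ^ r = UU 𝕜 j * 2 ^ r'

lemma pow_two_aux {a b c d : ℕ} (hd : d < c) (h : 2 ^ a + 2 ^ d = 2 ^ c + 2 ^ b) :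
    ¬ a < c := by
  intro hac
  have h1 : 2 ^ (a + 1) ≤ 2 ^ c := Nat.pow_le_pow_right (by norm_num) hac
  have h2 : 2 ^ (d + 1) ≤ 2 ^ c := Nat.pow_le_pow_right (by norm_num) hd
  have h3 : 0 < 2 ^ b := by positivity
  rw [pow_succ] at h1 h2
  omega

lemma pow_two_inj {a b c d : ℕ} (hb : b < a) (hd : d < c) (h : 2 ^ a + 2 ^ d = 2 ^ c + 2 ^ b) :
    a = c ∧ b = d := by
  have h1 := pow_two_aux hd h
  have h2 := pow_two_aux hb h.symm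
  have h3 : a = c := by omega
  subst h3
  refine ⟨rfl, ?_⟩
  have h4 : 2 ^ d = 2 ^ b := by omega
  exact (Nat.pow_right_injective (le_refl 2) h4).symm

lemma UU_ge (j : ℕ) : MM 𝕜 j + hh 𝕜 j + KK 𝕜 j + 2 ≤ UU 𝕜 j := gg_le_UU 𝕜 j

lemma UU_ge' {i j : ℕ} (h : i < j) : mm 𝕜 i + MM 𝕜 j + 2 ≤ UU 𝕜 j := by
  obtain ⟨k, rfl⟩ : ∃ k, j = k + 1 := ⟨j - 1, by omega⟩
  have h1 := mm_succ 𝕜 k
  have h2 := (mm_strictMono 𝕜).monotone (show i ≤ k by omega)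
  unfold gg at h1
  omega

lemma JJ_disj {j r s : ℕ} {ω : Om} (hr : JJ 𝕜 j r ω) (hs : JJ 𝕜 j s ω) (hr' : r < RR j)
    (hs' : s < RR j) : r = s := by
  have hU := UU_ge 𝕜 j
  have hpos : 0 < UU 𝕜 j := by have := two_le_UU 𝕜 j; omega
  rcases ω with p | ⟨l, i⟩
  · have hwin : ∀ r, r < RR j → (∃ r' < r, UU 𝕜 j * 2 ^ r ≤ p + UU 𝕜 j * 2 ^ r' + MM 𝕜 j ∧
        p + UU 𝕜 j * 2 ^ r' + MM 𝕜 j ≤ UU 𝕜 j * 2 ^ r + KK 𝕜 j) → p ≤ nn 𝕜 j := by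
      rintro r hr ⟨r', -, -, h2⟩
      have h1 := UU_pow_mono 𝕜 j (show r + 1 ≤ RR j from hr)
      rw [UU_pow_succ] at h1
      have h3 := UU_le_pow 𝕜 j r
      have h5 : nn 𝕜 j = UU 𝕜 j * 2 ^ RR j := rfl
      omega
    rcases hr with hr | hr <;> rcases hs with hs | hs
    · have h1 : vt 𝕜 j r = vt 𝕜 j s := by rw [← hr, ← hs]
      unfold vt at h1
      have h2 : UU 𝕜 j * 2 ^ r = UU 𝕜 j * 2 ^ s := by omega
      have h3 := Nat.eq_of_mul_eq_mul_left hpos h2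
      exact Nat.pow_right_injective (le_refl 2) h3
    · have := hwin s hs' hs
      unfold vt at hr
      omega
    · have := hwin r hr' hr
      unfold vt at hs
      omega
    · obtain ⟨r', hrr, h1, h2⟩ := hr
      obtain ⟨s', hss, h3, h4⟩ := hs
      have e1 : UU 𝕜 j * (2 ^ r + 2 ^ s') ≤ UU 𝕜 j * (2 ^ s + 2 ^ r') + KK 𝕜 j := by
        rw [Nat.mul_add, Nat.mul_add]; omega
      have e2 : UU 𝕜 j * (2 ^ s + 2 ^ r') ≤ UU 𝕜 j * (2 ^ r + 2 ^ s') + KK 𝕜 j := by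
        rw [Nat.mul_add, Nat.mul_add]; omega
      have e3 : 2 ^ r + 2 ^ s' = 2 ^ s + 2 ^ r' := by
        rcases lt_trichotomy (2 ^ r + 2 ^ s') (2 ^ s + 2 ^ r') with h | h | h
        · have := Nat.mul_le_mul_left (UU 𝕜 j) (show 2 ^ r + 2 ^ s' + 1 ≤ 2 ^ s + 2 ^ r' from h)
          rw [Nat.mul_add (UU 𝕜 j) _ 1] at this
          omega
        · exact h
        · have := Nat.mul_le_mul_left (UU 𝕜 j) (show 2 ^ s + 2 ^ r' + 1 ≤ 2 ^ r + 2 ^ s' from h)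
          rw [Nat.mul_add (UU 𝕜 j) _ 1] at this
          omega
      exact (pow_two_inj hrr hss e3).1
  · obtain ⟨-, r', hrr, -, h1⟩ := hr
    obtain ⟨-, s', hss, -, h2⟩ := hs
    have e1 : UU 𝕜 j * (2 ^ r' + 2 ^ s) = UU 𝕜 j * (2 ^ s' + 2 ^ r) := by
      rw [Nat.mul_add, Nat.mul_add]; omega
    have e3 := Nat.eq_of_mul_eq_mul_left hpos e1
    exact (pow_two_inj hrr hss e3).2

lemma JJ_InO {j r : ℕ} {ω : Om} (hr : JJ 𝕜 j r ω) (hr' : r < RR j) : InO 𝕜 j ω := by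
  have hU := UU_ge 𝕜 j
  have h4 : mm 𝕜 j = 2 * nn 𝕜 j := mm_eq 𝕜 j
  have h5 : nn 𝕜 j = UU 𝕜 j * 2 ^ RR j := rfl
  rcases ω with p | ⟨l, i⟩
  · show p ≤ mm 𝕜 j
    rcases hr with hr | ⟨r', -, -, h2⟩
    · rw [hr]
      exact (vt_act 𝕜 j r hr').2
    · have h1 := UU_pow_mono 𝕜 j (show r + 1 ≤ RR j from hr')
      rw [UU_pow_succ] at h1
      have h3 := UU_le_pow 𝕜 j r
      omega
  · obtain ⟨rfl, r', hrr, h1, h2⟩ := hr
    refine ⟨le_rfl, ?_⟩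
    have h3 := UU_pow_mono 𝕜 l (show r' ≤ RR l from h1.le)
    omega

/-- a small set misses the junk of some visit -/
lemma exists_visit {A : Set Om} {C : ℕ}
    (hC : ∀ k, ∀ s : Finset Om, (∀ ω ∈ s, ω ∈ A ∧ InO 𝕜 k ω) → s.card ≤ C * (k + 1)) {j : ℕ}
    (hj : C ≤ j) : ∃ r < RR j, ∀ ω, JJ 𝕜 j r ω → ω ∉ A := by
  classical
  by_contra hcon
  push Not at hcon
  choose! f hf using hcon
  have h1 := hC j ((range (RR j)).image f) (fun ω hω => by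
    rw [Finset.mem_image] at hω
    obtain ⟨r, hr, rfl⟩ := hω
    rw [Finset.mem_range] at hr
    exact ⟨(hf r hr).2, JJ_InO 𝕜 (hf r hr).1 hr⟩)
  rw [Finset.card_image_of_injOn, Finset.card_range] at h1
  · unfold RR at h1
    have h2 : (j + 1) * (j + 1) ≤ C * (j + 1) := by rw [← sq]; exact h1
    have h3 := Nat.le_of_mul_le_mul_right h2 (Nat.succ_pos j)
    omega
  · intro r hr s hs he
    simp only [coe_range, Set.mem_Iio] at hr hs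
    have h2 := (hf r hr).1
    have h3 := (hf s hs).1
    rw [← he] at h3
    exact JJ_disj 𝕜 h2 h3 hr hs

lemma psi_symm_rest (u : V 𝕜) (h1 : InW u) (h2 : ∀ n, u (Sum.inl n) ≠ 0 → yy 𝕜 n = 0) :
    (psi 𝕜).symm u = u := by
  rw [LinearEquiv.symm_apply_eq, psi_apply]
  have : NN 𝕜 u = 0 := by
    ext ω
    rw [NN_apply]
    apply Finset.sum_eq_zero
    intro ω' hω'
    rcases ω' with n | q
    · simp only [nt]
      rw [h2 n (Finsupp.mem_support_iff.1 hω')]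
      simp
    · simp [nt]
  rw [this, sub_zero]

/-- forward images of the target -/
lemma forward (j r r' : ℕ) (hrr : r' < r) (hr : r < RR j) :
    let u := (TT 𝕜 ^ (UU 𝕜 j * 2 ^ r - UU 𝕜 j * 2 ^ r')) (vv 𝕜 j)
    (psi 𝕜).symm u = u ∧ ∀ ω, u ω ≠ 0 → JJ 𝕜 j r ω := by
  intro u
  have hU := UU_ge 𝕜 j
  have hd1 := UU_pow_mono 𝕜 j (show r' + 1 ≤ r from hrr)
  rw [UU_pow_succ] at hd1
  have hd2 := UU_le_pow 𝕜 j r'
  set d := UU 𝕜 j * 2 ^ r - UU 𝕜 j * 2 ^ r' with hd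
  have hdM : MM 𝕜 j ≤ d := by omega
  have hu : u = (TT 𝕜 ^ (d - MM 𝕜 j)) ((TT 𝕜 ^ MM 𝕜 j) (vv 𝕜 j)) := by
    rw [← Module.End.mul_apply, ← pow_add, Nat.sub_add_cancel hdM]
  have hW : InW u := by
    rw [hu]
    exact (MM_spec 𝕜 j).pow _
  have hsupp : ∀ n, u (Sum.inl n) ≠ 0 → d - MM 𝕜 j ≤ n ∧ n ≤ d - MM 𝕜 j + KK 𝕜 j := by
    intro n hn
    rw [hu, (MM_spec 𝕜 j).pow_inl] at hn
    split_ifs at hn with h
    · refine ⟨h, ?_⟩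
      have h1 := hh_spec 𝕜 j _ _ hn
      unfold KK
      omega
    · exact absurd rfl hn
  constructor
  · apply psi_symm_rest 𝕜 u hW
    intro n hn
    obtain ⟨h1, h2⟩ := hsupp n hn
    apply yy_rest' 𝕜 (j := j)
    · intro i hi
      have := UU_ge' 𝕜 hi
      omega
    · have h3 := UU_pow_mono 𝕜 j (show r + 1 ≤ RR j from hr)
      rw [UU_pow_succ] at h3
      have h5 : nn 𝕜 j = UU 𝕜 j * 2 ^ RR j := rfl
      omega
  · intro ω hω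
    rcases ω with n | p
    · obtain ⟨h1, h2⟩ := hsupp n hω
      right
      exact ⟨r', hrr, by omega, by omega⟩
    · exact absurd (hW p) hω

/-- the junk of a visit lives on `JJ` -/
lemma junk (j r : ℕ) (hr : r < RR j) (ω : Om)
    (hω : ((psi 𝕜).symm (xx 𝕜 (vt 𝕜 j r)) - (psi 𝕜).symm (vv 𝕜 j)) ω ≠ 0) : JJ 𝕜 j r ω := by
  classical
  have hpos := two_le_UU 𝕜 j
  have h1 : yy 𝕜 (vt 𝕜 j r) = (TT 𝕜 ^ (UU 𝕜 j * 2 ^ r)) (YY 𝕜 j) := by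
    rw [yy_act 𝕜 (vt_act 𝕜 j r hr)]
    congr 2
    unfold vt
    omega
  have h2 : (psi 𝕜).symm (xx 𝕜 (vt 𝕜 j r)) - (psi 𝕜).symm (vv 𝕜 j) = xx 𝕜 (vt 𝕜 j r) +
      ∑ r' ∈ (range (RR j)).erase r,
        (psi 𝕜).symm ((TT 𝕜 ^ (UU 𝕜 j * 2 ^ r)) (cc 𝕜 j (UU 𝕜 j * 2 ^ r' - 1))) := by
    rw [psi_symm_xx, h1, YY, map_sum, map_sum,
      ← Finset.add_sum_erase _ _ (Finset.mem_range.2 hr)]
    have h3 : (TT 𝕜 ^ (UU 𝕜 j * 2 ^ r)) (cc 𝕜 j (UU 𝕜 j * 2 ^ r - 1)) = vv 𝕜 j := by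
      have h4 := pow_cc_gt 𝕜 0 j (UU 𝕜 j * 2 ^ r - 1)
      have h5 := UU_le_pow 𝕜 j r
      rw [add_zero, Nat.sub_add_cancel (by omega), pow_zero, Module.End.one_apply] at h4
      exact h4
    rw [h3]
    abel
  rw [h2, Finsupp.add_apply] at hω
  by_cases h3 : xx 𝕜 (vt 𝕜 j r) ω = 0
  · rw [h3, zero_add] at hω
    obtain ⟨r', hr', h4⟩ := sum_apply_ne 𝕜 _ _ _ hω
    rw [Finset.mem_erase, Finset.mem_range] at hr'
    have h6 := UU_le_pow 𝕜 j r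
    have h7 := UU_le_pow 𝕜 j r'
    rcases lt_or_gt_of_ne hr'.1 with h5 | h5
    · have h8 := pow_cc_gt 𝕜 (UU 𝕜 j * 2 ^ r - UU 𝕜 j * 2 ^ r') j (UU 𝕜 j * 2 ^ r' - 1)
      have h9 := UU_pow_mono 𝕜 j h5.le
      have h10 : UU 𝕜 j * 2 ^ r' - 1 + 1 + (UU 𝕜 j * 2 ^ r - UU 𝕜 j * 2 ^ r') =
        UU 𝕜 j * 2 ^ r := by omega
      rw [h10] at h8
      rw [h8] at h4
      obtain ⟨h11, h12⟩ := forward 𝕜 j r r' h5 hr
      rw [h11] at h4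
      exact h12 ω h4
    · have h8 := UU_pow_mono 𝕜 j (show r + 1 ≤ r' from h5)
      rw [UU_pow_succ] at h8
      rw [pow_cc_le 𝕜 _ _ _ (by omega), psi_symm_cc] at h4
      rw [cc, Finsupp.single_apply] at h4
      split_ifs at h4 with h9
      · rw [← h9]
        exact ⟨rfl, r', h5, hr'.2, by omega⟩
      · exact absurd rfl h4
  · rw [xx, Finsupp.single_apply] at h3
    split_ifs at h3 with h9
    · rw [← h9]
      exact Or.inl rfl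
    · exact absurd rfl h3

end Pool.Agent.R579.CD
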