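import Mathlib

set_option autoImplicit false

namespace Pool.Agent.R579.Drazin

open Submodule

section

variable {E : Type} [NormedAddCommGroup E] [NormedSpace ℂ E]

/-- kernel of the `k`-th power -/
def kerPow (T : E →L[ℂ] E) (k : ℕ) : Submodule ℂ E := LinearMap.ker (T ^ k).toLinearMap

/-- range of the `k`-th power -/
def ranPow (T : E →L[ℂ] E) (k : ℕ) : Submodule ℂ E := LinearMap.range (T ^ k).toLinearMap

/-- the ascent of `T` is finite and equal to `k` -/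
def HasAscent (T : E →L[ℂ] E) (k : ℕ) : Prop := IsLeast {j | kerPow T (j + 1) = kerPow T j} k

/-- the descent of `T` is finite and equal to `k` -/
def HasDescent (T : E →L[ℂ] E) (k : ℕ) : Prop := IsLeast {j | ranPow T (j + 1) = ranPow T j} k

def LeftDrazin (T : E →L[ℂ] E) : Prop :=
  ∃ k, HasAscent T k ∧ IsClosed (ranPow T (k + 1) : Set E)

def RightDrazin (T : E →L[ℂ] E) : Prop :=
  ∃ k, HasDescent T k ∧ IsClosed (ranPow T k : Set E)

def DrazinInvertible (T : E →L[ℂ] E) : Prop := (∃ k, HasAscent T k) ∧ ∃ k, HasDescent T k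

/-- the dimension of a closed subspace of a separable Hilbert space, `⊤` when it is infinite -/
noncomputable def sdim (U : Submodule ℂ E) : ℕ∞ := Cardinal.toENat (Module.rank ℂ U)

end

variable {H K : Type} [NormedAddCommGroup H] [InnerProductSpace ℂ H]
  [NormedAddCommGroup K] [InnerProductSpace ℂ K]

/-- Condition (iii) -/
def CondIII (A : H →L[ℂ] H) (B : K →L[ℂ] K) : Prop :=
  ∃ δ : ℝ, 0 < δ ∧ ∀ l : ℂ, 0 < ‖l‖ → ‖l‖ < δ →
    sdim (LinearMap.range (A - l • ContinuousLinearMap.id ℂ H).toLinearMap)ᗮ =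
      sdim (LinearMap.ker (B - l • ContinuousLinearMap.id ℂ K).toLinearMap)

/-- the space `R(A) + N(A^p)` -/
def spS (A : H →L[ℂ] H) (p : ℕ) : Submodule ℂ H := ranPow A 1 ⊔ kerPow A p

/-- the closure of `N(B) ∩ R(B^p)` -/
def spT (B : K →L[ℂ] K) (p : ℕ) : Submodule ℂ K := (kerPow B 1 ⊓ ranPow B p).topologicalClosure

/-- Condition (E) -/
def CondE (A : H →L[ℂ] H) (B : K →L[ℂ] K) (p : ℕ) : Prop :=
  IsClosed (spS A p : Set H) ∧ sdim (spS A p)ᗮ = sdim (spT B p)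

/-- admissible operators `C` -/
def Admissible (A : H →L[ℂ] H) (B : K →L[ℂ] K) (p : ℕ) (C : K →L[ℂ] H) : Prop :=
  (∃ J : spT B p ≃L[ℂ] ↥(spS A p)ᗮ, ∀ t : spT B p, C t = J t) ∧ ∀ x ∈ (spT B p)ᗮ, C x = 0

/-- `p ≥ max{1, asc(A), dsc(B)}`, in particular both are finite -/
def GoodP (A : H →L[ℂ] H) (B : K →L[ℂ] K) (p : ℕ) : Prop :=
  1 ≤ p ∧ (∃ a ≤ p, HasAscent A a) ∧ ∃ b ≤ p, HasDescent B b

/-- the operator matrix `M_C = [[A, C], [0, B]]` on `H ⊕ K` -/
noncomputable def MC (A : H →L[ℂ] H) (B : K →L[ℂ] K) (C : K →L[ℂ] H) : (H × K) →L[ℂ] (H × K) :=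
  (A.comp (ContinuousLinearMap.fst ℂ H K) + C.comp (ContinuousLinearMap.snd ℂ H K)).prod
    (B.comp (ContinuousLinearMap.snd ℂ H K))

lemma MC_apply (A : H →L[ℂ] H) (B : K →L[ℂ] K) (C : K →L[ℂ] H) (z : H × K) :
    MC A B C z = (A z.1 + C z.2, B z.2) := rfl

section powers

variable {E : Type} [NormedAddCommGroup E] [NormedSpace ℂ E] (T : E →L[ℂ] E)

lemma mem_kerPow {k : ℕ} {x : E} : x ∈ kerPow T k ↔ (T ^ k) x = 0 := Iff.rfl

lemma mem_ranPow {k : ℕ} {x : E} : x ∈ ranPow T k ↔ ∃ y, (T ^ k) y = x := Iff.rfl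

lemma pow_add_apply (j k : ℕ) (x : E) : (T ^ (j + k)) x = (T ^ j) ((T ^ k) x) := by
  rw [pow_add]; rfl

lemma pow_succ_apply' (k : ℕ) (x : E) : (T ^ (k + 1)) x = (T ^ k) (T x) := by
  rw [pow_succ]; rfl

lemma pow_succ_apply (k : ℕ) (x : E) : (T ^ (k + 1)) x = T ((T ^ k) x) := by
  rw [pow_succ']; rfl

lemma kerPow_mono {j k : ℕ} (h : j ≤ k) : kerPow T j ≤ kerPow T k := by
  intro x hx
  obtain ⟨d, rfl⟩ := Nat.exists_eq_add_of_le h
  rw [mem_kerPow] at hx ⊢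
  rw [add_comm, pow_add_apply, hx, map_zero]

lemma ranPow_anti {j k : ℕ} (h : j ≤ k) : ranPow T k ≤ ranPow T j := by
  rintro x ⟨y, rfl⟩
  obtain ⟨d, rfl⟩ := Nat.exists_eq_add_of_le h
  exact ⟨(T ^ d) y, (pow_add_apply T j d y).symm⟩

/-- the ascent stabilises -/
lemma ker_stable {a : ℕ} (h : kerPow T (a + 1) = kerPow T a) {p : ℕ} (hp : a ≤ p) :
    kerPow T p = kerPow T a := by
  obtain ⟨d, rfl⟩ := Nat.exists_eq_add_of_le hp
  clear hp
  induction d with
  | zero => rfl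
  | succ d ih =>
    apply le_antisymm _ (kerPow_mono T (by omega))
    intro x hx
    rw [mem_kerPow, ← add_assoc, pow_succ_apply'] at hx
    have h1 : T x ∈ kerPow T (a + d) := hx
    rw [ih, mem_kerPow, ← pow_succ_apply'] at h1
    rw [← h]
    exact h1

lemma ran_stable {a : ℕ} (h : ranPow T (a + 1) = ranPow T a) {p : ℕ} (hp : a ≤ p) :
    ranPow T p = ranPow T a := by
  obtain ⟨d, rfl⟩ := Nat.exists_eq_add_of_le hp
  clear hp
  induction d with
  | zero => rfl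
  | succ d ih =>
    apply le_antisymm (ranPow_anti T (by omega))
    intro x hx
    rw [← h] at hx
    obtain ⟨y, rfl⟩ := hx
    have h1 : (T ^ a) y ∈ ranPow T (a + d) := by rw [ih]; exact ⟨y, rfl⟩
    obtain ⟨z, hz⟩ := h1
    refine ⟨z, ?_⟩
    show (T ^ (a + (d + 1))) z = (T ^ (a + 1)) y
    rw [← add_assoc, pow_succ_apply, pow_succ_apply]
    congr 1

/-- finite ascent from stabilisation -/
lemma hasAscent_of {k : ℕ} (h : kerPow T (k + 1) = kerPow T k) : ∃ j ≤ k, HasAscent T j := by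
  classical
  have h1 : ∃ j, kerPow T (j + 1) = kerPow T j := ⟨k, h⟩
  exact ⟨Nat.find h1, Nat.find_min' h1 h, Nat.find_spec h1, fun j hj => Nat.find_min' h1 hj⟩

lemma hasDescent_of {k : ℕ} (h : ranPow T (k + 1) = ranPow T k) : ∃ j ≤ k, HasDescent T j := by
  classical
  have h1 : ∃ j, ranPow T (j + 1) = ranPow T j := ⟨k, h⟩
  exact ⟨Nat.find h1, Nat.find_min' h1 h, Nat.find_spec h1, fun j hj => Nat.find_min' h1 hj⟩

end powers

end Pool.Agent.R579.Drazin
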