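import Pool.Agent.R579.Orbit2

set_option autoImplicit false

namespace Pool.Agent.R579.Orbit

open scoped InnerProductSpace ENNReal
open Filter MeasureTheory

/-- The Hilbert space of square integrable functions on the real line. -/
noncomputable abbrev L2R := Lp ℂ 2 (volume : Measure ℝ)

lemma memLp_gabor (a b : ℝ) (g : L2R) (p : ℤ × ℤ) :
    MemLp (fun t : ℝ => Complex.exp (((2 * Real.pi * (p.1 * b * t) : ℝ) : ℂ) * Complex.I) *
      g (t - p.2 * a)) 2 volume := by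
  have h1 : MemLp (fun t : ℝ => g (t - p.2 * a)) 2 volume :=
    (Lp.memLp g).comp_measurePreserving (measurePreserving_sub_right volume ((p.2 : ℝ) * a))
  refine MemLp.of_le h1 ?_ ?_
  · refine AEStronglyMeasurable.mul ?_ h1.1
    exact (by fun_prop : Continuous fun t : ℝ => Complex.exp (((2 * Real.pi * (p.1 * b * t) : ℝ) : ℂ) * Complex.I)).aestronglyMeasurable
  · refine Eventually.of_forall fun t => ?_
    rw [norm_mul, Complex.norm_exp_ofReal_mul_I, one_mul]

/-- The Gabor system: `gabor a b g (m, n)` is the function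
`t ↦ exp (2 π i m b t) * g (t - n a)`. -/
noncomputable def gabor (a b : ℝ) (g : L2R) (p : ℤ × ℤ) : L2R :=
  MemLp.toLp (fun t : ℝ => Complex.exp (((2 * Real.pi * (p.1 * b * t) : ℝ) : ℂ) * Complex.I) *
      g (t - p.2 * a)) (memLp_gabor a b g p)

lemma gabor_ae (a b : ℝ) (g : L2R) (p : ℤ × ℤ) :
    gabor a b g p =ᵐ[volume] fun t : ℝ => Complex.exp (((2 * Real.pi * (p.1 * b * t) : ℝ) : ℂ) * Complex.I) *
      g (t - p.2 * a) := MemLp.coeFn_toLp _

lemma gabor_inner (a b : ℝ) (g : L2R) (p q : ℤ × ℤ) :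
    ⟪gabor a b g p, gabor a b g q⟫_ℂ = ∫ t : ℝ,
      Complex.exp (((2 * Real.pi * ((q.1 - p.1) * b * t) : ℝ) : ℂ) * Complex.I) *
      (starRingEnd ℂ (g (t - p.2 * a)) * g (t - q.2 * a)) := by
  rw [MeasureTheory.L2.inner_def]
  refine integral_congr_ae ?_
  filter_upwards [gabor_ae a b g p, gabor_ae a b g q] with t h1 h2
  rw [h1, h2, RCLike.inner_apply, map_mul]
  have h3 : starRingEnd ℂ (Complex.exp (((2 * Real.pi * (p.1 * b * t) : ℝ) : ℂ) * Complex.I)) =
      Complex.exp (-(((2 * Real.pi * (p.1 * b * t) : ℝ) : ℂ) * Complex.I)) := by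
    rw [← Complex.exp_conj, map_mul, Complex.conj_ofReal, Complex.conj_I]; ring_nf
  have h4 : Complex.exp (((2 * Real.pi * ((q.1 - p.1) * b * t) : ℝ) : ℂ) * Complex.I) =
      Complex.exp (((2 * Real.pi * (q.1 * b * t) : ℝ) : ℂ) * Complex.I) *
      Complex.exp (-(((2 * Real.pi * (p.1 * b * t) : ℝ) : ℂ) * Complex.I)) := by
    rw [← Complex.exp_add]; congr 1; push_cast; ring
  rw [h3, h4]; ring

/-- phases -/
noncomputable def ph (a b : ℝ) (μ p : ℤ × ℤ) : ℂ :=
  Complex.exp (((-(2 * Real.pi * (p.1 * b * (μ.2 * a))) : ℝ) : ℂ) * Complex.I)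

lemma norm_ph (a b : ℝ) (μ p : ℤ × ℤ) : ‖ph a b μ p‖ = 1 := Complex.norm_exp_ofReal_mul_I _

lemma gabor_gram (a b : ℝ) (g : L2R) (μ p q : ℤ × ℤ) :
    ⟪ph a b μ p • gabor a b g (p + μ), ph a b μ q • gabor a b g (q + μ)⟫_ℂ =
      ⟪gabor a b g p, gabor a b g q⟫_ℂ := by
  rw [inner_smul_left, inner_smul_right, gabor_inner, gabor_inner]
  have h1 := integral_sub_right_eq_self (μ := (volume : Measure ℝ)) (fun t : ℝ =>
      Complex.exp (((2 * Real.pi * ((q.1 - p.1) * b * t) : ℝ) : ℂ) * Complex.I) *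
      (starRingEnd ℂ (g (t - p.2 * a)) * g (t - q.2 * a))) ((μ.2 : ℝ) * a)
  rw [← h1, ← mul_assoc, ← integral_const_mul]
  refine integral_congr_ae (Eventually.of_forall fun t => ?_)
  simp only [Prod.fst_add, Prod.snd_add]
  have e1 : t - ((p.2 + μ.2 : ℤ) : ℝ) * a = t - μ.2 * a - p.2 * a := by push_cast; ring
  have e2 : t - ((q.2 + μ.2 : ℤ) : ℝ) * a = t - μ.2 * a - q.2 * a := by push_cast; ring
  rw [e1, e2]
  have h3 : starRingEnd ℂ (ph a b μ p) =
      Complex.exp (((2 * Real.pi * (p.1 * b * (μ.2 * a)) : ℝ) : ℂ) * Complex.I) := by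
    rw [ph, ← Complex.exp_conj, map_mul, Complex.conj_ofReal, Complex.conj_I]
    push_cast; ring_nf
  rw [h3, ph, ← mul_assoc, ← Complex.exp_add, ← Complex.exp_add]
  congr 2
  push_cast; ring

lemma norm_gabor (a b : ℝ) (g : L2R) (p : ℤ × ℤ) : ‖gabor a b g p‖ = ‖gabor a b g 0‖ := by
  have h := gabor_gram a b g p 0 0
  rw [inner_smul_left, inner_smul_right, zero_add] at h
  have h1 : starRingEnd ℂ (ph a b p 0) * (ph a b p 0 * ⟪gabor a b g p, gabor a b g p⟫_ℂ) =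
      ⟪gabor a b g p, gabor a b g p⟫_ℂ := by
    rw [← mul_assoc, ← Complex.normSq_eq_conj_mul_self, Complex.normSq_eq_norm_sq, norm_ph]
    simp
  rw [h1, inner_self_eq_norm_sq_to_K, inner_self_eq_norm_sq_to_K] at h
  have h2 : ‖gabor a b g p‖ ^ 2 = ‖gabor a b g 0‖ ^ 2 := by
    apply Complex.ofReal_injective
    push_cast
    exact h
  exact (pow_left_inj₀ (norm_nonneg _) (norm_nonneg _) two_ne_zero).1 h2

/-- nonzero element -/
lemma exists_ne_zero : ∃ h : L2R, h ≠ 0 := by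
  refine ⟨indicatorConstLp 2 (measurableSet_Icc (a := (0:ℝ)) (b := 1)) (by simp) (1 : ℂ), ?_⟩
  rw [← norm_ne_zero_iff, norm_indicatorConstLp (by norm_num) (by norm_num)]
  simp

lemma frame_norm_pos (a b : ℝ) (g : L2R) (hf : IsFrame (gabor a b g)) : 0 < ‖gabor a b g 0‖ := by
  rcases (norm_nonneg (gabor a b g 0)).lt_or_eq with h | h
  · exact h
  · exfalso
    obtain ⟨A, B, hA, hB, hf⟩ := hf
    obtain ⟨x, hx⟩ := exists_ne_zero
    have h1 := (hf x).2.1
    have h2 : ∀ p, gabor a b g p = 0 := fun p => norm_eq_zero.1 (by rw [norm_gabor, ← h])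
    simp only [h2, inner_zero_left, norm_zero] at h1
    have h3 : 0 < ‖x‖ := norm_pos_iff.2 hx
    have h4 : 0 < A * ‖x‖ ^ 2 := by positivity
    simp at h1
    linarith

section reindex

variable {F : Type*} [NormedAddCommGroup F] [InnerProductSpace ℂ F]

lemma IsFrame.comp {ι κ : Type*} {f : ι → F} (hf : IsFrame f) (σ : κ ≃ ι) : IsFrame (f ∘ σ) := by
  obtain ⟨A, B, hA, hB, hf⟩ := hf
  refine ⟨A, B, hA, hB, fun h => ?_⟩
  have h1 : (fun k => ‖⟪(f ∘ σ) k, h⟫_ℂ‖ ^ 2) = (fun k => ‖⟪f k, h⟫_ℂ‖ ^ 2) ∘ σ := rfl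
  rw [h1]
  refine ⟨σ.summable_iff.2 (hf h).1, ?_, ?_⟩
  · have := (hf h).2.1
    rwa [← σ.tsum_eq] at this
  · have := (hf h).2.2
    rwa [← σ.tsum_eq] at this

lemma IsRieszBasis.comp {ι κ : Type*} {f : ι → F} (hf : IsRieszBasis f) (σ : κ ≃ ι) :
    IsRieszBasis (f ∘ σ) := by
  obtain ⟨h1, A, B, hA, hB, h2⟩ := hf
  refine ⟨by rwa [σ.surjective.range_comp], A, B, hA, hB, fun c => ?_⟩
  have h3 := h2 (c.equivMapDomain σ)
  rw [Finsupp.sum_equivMapDomain, Finsupp.sum_equivMapDomain] at h3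
  exact h3

end reindex

/-- No overcomplete Gabor frame is a bounded orbit over the integers. -/
theorem gabor_Z (a b : ℝ) (g : L2R) (hf : IsFrame (gabor a b g)) (hR : ¬ IsRieszBasis (gabor a b g))
    (σ : ℤ ≃ ℤ × ℤ) : ¬ BddShift (fun k => k + 1) (gabor a b g ∘ σ) := by
  intro hT
  obtain ⟨U, hU, A, hA, hlow⟩ := exists_synthesis (gabor a b g ∘ σ) (hf.comp σ)
  have hex : ∃ x, U x = 0 ∧ x ≠ 0 := by
    by_contra hno
    push Not at hno
    have := (isRiesz_of_inj _ U hU A hA hlow hno).comp σ.symm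
    apply hR
    convert this using 1
    funext p
    simp
  obtain ⟨x0, hx0, hx0'⟩ := hex
  refine no_bdd_Z (gabor a b g ∘ σ) U hU x0 hx0 hx0' _ (frame_norm_pos a b g hf)
    (fun k => norm_gabor a b g _) hT σ (fun μ k => ph a b μ (σ k)) (fun μ k => norm_ph _ _ _ _) ?_
  intro μ k l
  simp only [Function.comp_apply, Equiv.apply_symm_apply]
  exact gabor_gram a b g μ (σ k) (σ l)

/-- No overcomplete Gabor frame is a bounded orbit over the naturals. -/
theorem gabor_N (a b : ℝ) (g : L2R) (hf : IsFrame (gabor a b g)) (hR : ¬ IsRieszBasis (gabor a b g))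
    (σ : ℕ ≃ ℤ × ℤ) : ¬ BddShift (fun k => k + 1) (gabor a b g ∘ σ) := by
  intro hT
  obtain ⟨U, hU, A, hA, hlow⟩ := exists_synthesis (gabor a b g ∘ σ) (hf.comp σ)
  have hex : ∃ x, U x = 0 ∧ x ≠ 0 := by
    by_contra hno
    push Not at hno
    have := (isRiesz_of_inj _ U hU A hA hlow hno).comp σ.symm
    apply hR
    convert this using 1
    funext p
    simp
  obtain ⟨x0, hx0, hx0'⟩ := hex
  exact no_bdd_N (gabor a b g ∘ σ) U hU x0 hx0 hx0' _ (frame_norm_pos a b g hf)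
    (fun k => norm_gabor a b g _) hT

end Pool.Agent.R579.Orbit
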