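import Mathlib

set_option autoImplicit false

namespace Pool.Agent.R579.Orbit

open scoped InnerProductSpace ENNReal
open Filter

variable {H : Type*} [NormedAddCommGroup H] [InnerProductSpace ℂ H]
variable {ι : Type*}

/-- `f` is a frame for `H`. -/
def IsFrame (f : ι → H) : Prop :=
  ∃ A B : ℝ, 0 < A ∧ 0 < B ∧ ∀ h : H, Summable (fun k => ‖⟪f k, h⟫_ℂ‖ ^ 2) ∧
    A * ‖h‖ ^ 2 ≤ ∑' k, ‖⟪f k, h⟫_ℂ‖ ^ 2 ∧ ∑' k, ‖⟪f k, h⟫_ℂ‖ ^ 2 ≤ B * ‖h‖ ^ 2

/-- `f` is a Riesz basis of `H`. -/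
def IsRieszBasis (f : ι → H) : Prop :=
  (Submodule.span ℂ (Set.range f)).topologicalClosure = ⊤ ∧
  ∃ A B : ℝ, 0 < A ∧ 0 < B ∧ ∀ c : ι →₀ ℂ,
    A * c.sum (fun _ z => ‖z‖ ^ 2) ≤ ‖c.sum (fun k z => z • f k)‖ ^ 2 ∧
    ‖c.sum (fun k z => z • f k)‖ ^ 2 ≤ B * c.sum (fun _ z => ‖z‖ ^ 2)

/-- The linear operator sending `f k` to `f (next k)` exists and is bounded on the span of `f`. -/
def BddShift (next : ι → ι) (f : ι → H) : Prop :=
  ∃ T : Submodule.span ℂ (Set.range f) →L[ℂ] H,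
    ∀ k, T ⟨f k, Submodule.subset_span ⟨k, rfl⟩⟩ = f (next k)

/-- little ell two -/
noncomputable abbrev E (ι : Type*) := lp (fun _ : ι => ℂ) 2

lemma norm_sq_eq (x : E ι) : ‖x‖ ^ 2 = ∑' i, ‖x i‖ ^ 2 := by
  have := lp.norm_rpow_eq_tsum (p := 2) (by norm_num) x
  simpa using this

lemma summable_sq (x : E ι) : Summable fun i => ‖x i‖ ^ 2 := by
  have := (lp.memℓp x).summable (by norm_num : 0 < (2 : ℝ≥0∞).toReal)
  simpa using this

section analysis

variable (f : ι → H) (hs : ∀ h : H, Summable (fun k => ‖⟪f k, h⟫_ℂ‖ ^ 2))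

/-- analysis operator -/
noncomputable def analysisLin : H →ₗ[ℂ] E ι where
  toFun h := ⟨fun k => ⟪f k, h⟫_ℂ, memℓp_gen (by simpa using hs h)⟩
  map_add' x y := by ext k; exact inner_add_right _ _ _
  map_smul' c x := by ext k; exact inner_smul_right _ _ _

lemma analysisLin_apply (h : H) (k : ι) : analysisLin f hs h k = ⟪f k, h⟫_ℂ := rfl

/-- bounded analysis operator -/
noncomputable def analysis (B : ℝ) (hB : ∀ h : H, ∑' k, ‖⟪f k, h⟫_ℂ‖ ^ 2 ≤ B * ‖h‖ ^ 2) :
    H →L[ℂ] E ι :=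
  LinearMap.mkContinuous (analysisLin f hs) (Real.sqrt |B|) (by
    intro h
    have h1 : ‖analysisLin f hs h‖ ^ 2 ≤ (Real.sqrt |B| * ‖h‖) ^ 2 := by
      rw [norm_sq_eq, mul_pow, Real.sq_sqrt (abs_nonneg _)]
      refine le_trans (hB h) ?_
      exact mul_le_mul_of_nonneg_right (le_abs_self B) (by positivity)
    exact le_of_sq_le_sq h1 (by positivity))

lemma analysis_apply (B : ℝ) (hB : ∀ h : H, ∑' k, ‖⟪f k, h⟫_ℂ‖ ^ 2 ≤ B * ‖h‖ ^ 2) (h : H) (k : ι) :
    analysis f hs B hB h k = ⟪f k, h⟫_ℂ := rfl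

end analysis

section basis
variable [DecidableEq ι]

/-- standard vector -/
noncomputable def e (k : ι) : E ι := lp.single 2 k (1 : ℂ)

lemma norm_e (k : ι) : ‖e k‖ = 1 := by
  simp [e, lp.norm_single]

lemma inner_e_left (k : ι) (x : E ι) : ⟪e k, x⟫_ℂ = x k := by
  rw [e, lp.inner_single_left]; simp

lemma inner_e_right (k : ι) (x : E ι) : ⟪x, e k⟫_ℂ = starRingEnd ℂ (x k) := by
  rw [← inner_conj_symm, inner_e_left]

lemma e_apply (k l : ι) : (e k : E ι) l = if l = k then 1 else 0 := by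
  by_cases h : l = k
  · subst h; simp [e]
  · simp [e, h]

lemma orthonormal_e : Orthonormal ℂ (e : ι → E ι) := by
  rw [orthonormal_iff_ite]
  intro i j
  rw [inner_e_left, e_apply]

lemma span_e : ⊤ ≤ (Submodule.span ℂ (Set.range (e : ι → E ι))).topologicalClosure := by
  intro x _
  have h := lp.hasSum_single (p := 2) (by norm_num) x
  refine mem_closure_of_tendsto h (Eventually.of_forall fun s => ?_)
  refine Submodule.sum_mem _ fun i _ => ?_
  have : lp.single 2 i (x i) = (x i) • (e i : E ι) := by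
    rw [e, ← lp.single_smul]; simp
  rw [this]
  exact Submodule.smul_mem _ _ (Submodule.subset_span ⟨i, rfl⟩)

lemma clm_ext {F : Type*} [NormedAddCommGroup F] [NormedSpace ℂ F] {S T : E ι →L[ℂ] F}
    (h : ∀ k, S (e k) = T (e k)) : S = T := by
  refine ContinuousLinearMap.ext_on (s := Set.range (e : ι → E ι)) ?_ ?_
  · rw [dense_iff_closure_eq, ← Submodule.topologicalClosure_coe, top_le_iff.1 span_e]
    rfl
  · rintro _ ⟨k, rfl⟩; exact h k

/-- weighted permutation unitary -/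
lemma exists_V (τ : ι ≃ ι) (u : ι → ℂ) (hu : ∀ k, ‖u k‖ = 1) :
    ∃ V : E ι ≃ₗᵢ[ℂ] E ι, ∀ k, V (e k) = u k • e (τ k) := by
  have hv : Orthonormal ℂ (fun k => u k • (e (τ k) : E ι)) := by
    rw [orthonormal_iff_ite]
    intro i j
    rw [inner_smul_left, inner_smul_right, inner_e_left, e_apply]
    by_cases h : i = j
    · subst h
      simp [← Complex.normSq_eq_conj_mul_self, Complex.normSq_eq_norm_sq, hu]
    · have : τ i ≠ τ j := fun h' => h (τ.injective h')
      simp [h, this]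
  have hsp : ⊤ ≤ (Submodule.span ℂ (Set.range (fun k => u k • (e (τ k) : E ι)))).topologicalClosure := by
    refine le_trans span_e (Submodule.topologicalClosure_mono (Submodule.span_le.2 ?_))
    rintro _ ⟨k, rfl⟩
    have h1 : (e k : E ι) = (u (τ.symm k))⁻¹ • (u (τ.symm k) • e (τ (τ.symm k))) := by
      have h0 : u (τ.symm k) ≠ 0 := by
        intro h; have := hu (τ.symm k); rw [h] at this; simp at this
      rw [smul_smul, inv_mul_cancel₀ h0, one_smul, Equiv.apply_symm_apply]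
    rw [SetLike.mem_coe, h1]
    exact Submodule.smul_mem _ _ (Submodule.subset_span ⟨τ.symm k, rfl⟩)
  refine ⟨(HilbertBasis.mk hv hsp).repr.symm, fun k => ?_⟩
  rw [e, HilbertBasis.repr_symm_single, HilbertBasis.coe_mk]

/-- isometry for an injective index map -/
lemma exists_iso (τ : ι → ι) (hτ : Function.Injective τ) :
    ∃ V : E ι →ₗᵢ[ℂ] E ι, ∀ k, V (e k) = e (τ k) := by
  have hv : Orthonormal ℂ (fun k => (e (τ k) : E ι)) := orthonormal_e.comp τ hτ
  refine ⟨hv.orthogonalFamily.linearIsometry, fun k => ?_⟩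
  rw [e, OrthogonalFamily.linearIsometry_apply_single]
  simp [e]

/-- kernel of synthesis, as a submodule -/
noncomputable def N {F : Type*} [NormedAddCommGroup F] [NormedSpace ℂ F] (U : E ι →L[ℂ] F) :
    Submodule ℂ (E ι) := LinearMap.ker (U : E ι →ₗ[ℂ] F)

variable {F : Type*} [NormedAddCommGroup F] [InnerProductSpace ℂ F]

lemma mem_N (U : E ι →L[ℂ] F) (x : E ι) : x ∈ N U ↔ U x = 0 := Iff.rfl

lemma isClosed_N (U : E ι →L[ℂ] F) : IsClosed (N U : Set (E ι)) := U.isClosed_ker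

instance (U : E ι →L[ℂ] F) : CompleteSpace (N U) := (isClosed_N U).completeSpace_coe

/-- projection onto the kernel -/
noncomputable def P (U : E ι →L[ℂ] F) : E ι →L[ℂ] E ι := (N U).starProjection

/-- invariance of the kernel under a unitary gives commutation -/
lemma P_comm (U : E ι →L[ℂ] F) (V : E ι ≃ₗᵢ[ℂ] E ι) (hV : ∀ x, x ∈ N U ↔ V x ∈ N U) (x : E ι) :
    P U (V x) = V (P U x) := by
  have hx1 : V (P U x) ∈ N U := (hV _).1 (Submodule.starProjection_apply_mem _ _)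
  refine (Submodule.eq_starProjection_of_mem_of_inner_eq_zero hx1 ?_)
  intro w hw
  obtain ⟨y, rfl⟩ := V.surjective w
  rw [← map_sub, LinearIsometryEquiv.inner_map_map]
  exact Submodule.starProjection_inner_eq_zero _ _ ((hV y).2 hw)

lemma K_inv (U : E ι →L[ℂ] F) (V : E ι ≃ₗᵢ[ℂ] E ι) (hV : ∀ x, x ∈ N U ↔ V x ∈ N U)
    (τ : ι → ι) (u : ι → ℂ) (hu : ∀ k, ‖u k‖ = 1) (hVe : ∀ k, V (e k) = u k • e (τ k)) (k l : ι) :
    ‖⟪e (τ l), P U (e (τ k))⟫_ℂ‖ = ‖⟪e l, P U (e k)⟫_ℂ‖ := by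
  have h1 : ⟪V (e l), P U (V (e k))⟫_ℂ = ⟪e l, P U (e k)⟫_ℂ := by
    rw [P_comm U V hV, LinearIsometryEquiv.inner_map_map]
  rw [← h1, hVe, hVe, map_smul, inner_smul_left, inner_smul_right]
  simp [hu]

/-- Gram symmetry gives kernel invariance -/
lemma N_inv_of_gram [CompleteSpace F] (U : E ι →L[ℂ] F) (V : E ι ≃ₗᵢ[ℂ] E ι)
    (hG : ∀ k l, ⟪U (V (e k)), U (V (e l))⟫_ℂ = ⟪U (e k), U (e l)⟫_ℂ) (x : E ι) :
    x ∈ N U ↔ V x ∈ N U := by
  set W : E ι →L[ℂ] F := U ∘L (V.toContinuousLinearEquiv : E ι →L[ℂ] E ι) with hW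
  have hWx : ∀ x, W x = U (V x) := fun x => rfl
  have h1 : W.adjoint ∘L W = U.adjoint ∘L U := by
    apply clm_ext
    intro k
    ext l
    rw [← inner_e_left, ← inner_e_left]
    simp only [ContinuousLinearMap.comp_apply, ContinuousLinearMap.adjoint_inner_right]
    rw [hWx, hWx]
    exact hG l k
  have h2 : ‖U (V x)‖ ^ 2 = ‖U x‖ ^ 2 := by
    have h3 : ⟪x, (W.adjoint ∘L W) x⟫_ℂ = ⟪x, (U.adjoint ∘L U) x⟫_ℂ := by rw [h1]
    simp only [ContinuousLinearMap.comp_apply, ContinuousLinearMap.adjoint_inner_right,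
      inner_self_eq_norm_sq_to_K, hWx] at h3
    exact_mod_cast h3
  rw [mem_N, mem_N, ← norm_eq_zero, ← norm_eq_zero (a := U (V x))]
  constructor
  · intro h; rw [h] at h2; simpa using h2
  · intro h; rw [h] at h2; simpa using h2.symm

/-- A wandering vector forces decay of the complementary projections. -/
lemma decay (R : E ι →ₗᵢ[ℂ] E ι) (M : Submodule ℂ (E ι)) [M.HasOrthogonalProjection]
    (hR : ∀ x ∈ M, R x ∈ M) (w : E ι) (hw : w ∈ M) (hw1 : ‖w‖ = 1)
    (hperp : ∀ x ∈ M, ⟪R x, w⟫_ℂ = 0) (S : Finset ι) (k : ι) (j : ι → ℕ)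
    (hj : Set.InjOn j S) (hk : ∀ i ∈ S, (⇑R)^[j i] (e i) = e k) :
    ∑ i ∈ S, ‖w i‖ ^ 2 ≤ ‖M.starProjection (e k)‖ ^ 2 := by
  have hmem : ∀ n : ℕ, (⇑R)^[n] w ∈ M := by
    intro n
    induction n with
    | zero => exact hw
    | succ n ih => rw [Function.iterate_succ_apply']; exact hR _ ih
  have hinner : ∀ (n : ℕ) (x y : E ι), ⟪(⇑R)^[n] x, (⇑R)^[n] y⟫_ℂ = ⟪x, y⟫_ℂ := by
    intro n
    induction n with
    | zero => intro x y; rfl
    | succ n ih =>
      intro x y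
      rw [Function.iterate_succ_apply', Function.iterate_succ_apply', R.inner_map_map, ih]
  have horth : Orthonormal ℂ (fun n : ℕ => (⇑R)^[n] w) := by
    constructor
    · intro n
      have := hinner n w w
      rw [inner_self_eq_norm_sq_to_K, inner_self_eq_norm_sq_to_K, hw1] at this
      have h2 : ‖(⇑R)^[n] w‖ ^ 2 = 1 := by
        have : ((‖(⇑R)^[n] w‖ ^ 2 : ℝ) : ℂ) = ((1 : ℝ) : ℂ) := by
          push_cast; simpa using this
        exact_mod_cast this
      exact (pow_eq_one_iff_of_nonneg (norm_nonneg _) two_ne_zero).1 h2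
    · have key : ∀ m n : ℕ, m < n → ⟪(⇑R)^[n] w, (⇑R)^[m] w⟫_ℂ = 0 := by
        intro m n hmn
        obtain ⟨d, rfl⟩ := Nat.exists_eq_add_of_lt hmn
        rw [show m + d + 1 = m + (d + 1) by ring, Function.iterate_add_apply, hinner,
          Function.iterate_succ_apply']
        exact hperp _ (hmem d)
      intro m n hmn
      rcases lt_or_gt_of_ne hmn with h | h
      · simp only
        rw [← inner_conj_symm, key m n h, map_zero]
      · exact key n m h
  have hb := horth.sum_inner_products_le (s := S.image j) (M.starProjection (e k))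
  rw [Finset.sum_image hj] at hb
  refine le_trans (le_of_eq ?_) hb
  refine Finset.sum_congr rfl fun i hi => ?_
  have h1 : ⟪(⇑R)^[j i] w, M.starProjection (e k)⟫_ℂ = ⟪w, e i⟫_ℂ := by
    have h0 : ⟪M.starProjection ((⇑R)^[j i] w), e k⟫_ℂ = ⟪(⇑R)^[j i] w, M.starProjection (e k)⟫_ℂ :=
      M.starProjection_isSymmetric _ _
    rw [← h0, Submodule.starProjection_eq_self_iff.2 (hmem _), ← hk i hi, hinner]
  rw [h1, inner_e_right, RCLike.norm_conj]

/-- existence of a wandering vector -/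
lemma exists_wandering (R : E ι →ₗᵢ[ℂ] E ι) (M : Submodule ℂ (E ι)) [CompleteSpace M]
    (hR : ∀ x ∈ M, R x ∈ M) (v : E ι) (hv : v ∈ M) (hv' : ∀ x ∈ M, R x ≠ v) :
    ∃ w ∈ M, ‖w‖ = 1 ∧ ∀ x ∈ M, ⟪R x, w⟫_ℂ = 0 := by
  have : CompleteSpace (M.map R.toLinearMap) := R.completeSpace_map M
  set Q := M.map R.toLinearMap with hQ
  have hQM : Q ≤ M := by
    rintro _ ⟨x, hx, rfl⟩; exact hR x hx
  set w0 := v - Q.starProjection v with hw0
  have hne : w0 ≠ 0 := by
    intro h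
    have h1 : v = Q.starProjection v := sub_eq_zero.1 h
    have h2 : v ∈ Q := by rw [h1]; exact Submodule.starProjection_apply_mem _ _
    obtain ⟨x, hx, hxv⟩ := h2
    exact hv' x hx hxv
  have hnorm : ‖w0‖ ≠ 0 := norm_ne_zero_iff.2 hne
  refine ⟨((‖w0‖ : ℂ))⁻¹ • w0, ?_, ?_, ?_⟩
  · refine M.smul_mem _ (M.sub_mem hv (hQM (Submodule.starProjection_apply_mem _ _)))
  · rw [norm_smul]; simp [hnorm]
  · intro x hx
    have hm : R x ∈ Q := ⟨x, hx, rfl⟩
    rw [inner_smul_right, ← inner_conj_symm,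
      Submodule.starProjection_inner_eq_zero v (R x) hm]
    simp

lemma norm_f_le (U : E ι →L[ℂ] F) (k : ι) :
    ‖U (e k)‖ ^ 2 ≤ ‖U‖ ^ 2 * (1 - ‖P U (e k)‖ ^ 2) := by
  have h1 : U (e k) = U (e k - P U (e k)) := by
    rw [map_sub]
    have : U (P U (e k)) = 0 := Submodule.starProjection_apply_mem (N U) (e k)
    rw [this, sub_zero]
  have h2 : ‖e k - P U (e k)‖ ^ 2 = 1 - ‖P U (e k)‖ ^ 2 := by
    have h3 : ‖(e k : E ι)‖ * ‖(e k : E ι)‖ = ‖P U (e k)‖ * ‖P U (e k)‖ + ‖e k - P U (e k)‖ * ‖e k - P U (e k)‖ := by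
      have h4 := norm_add_sq_eq_norm_sq_add_norm_sq_of_inner_eq_zero (𝕜 := ℂ) (P U (e k)) (e k - P U (e k)) (by
        rw [← inner_conj_symm]
        have : ⟪e k - P U (e k), P U (e k)⟫_ℂ = 0 :=
          Submodule.starProjection_inner_eq_zero _ _ (Submodule.starProjection_apply_mem (N U) (e k))
        rw [this, map_zero])
      rw [add_sub_cancel] at h4
      exact h4
    rw [norm_e] at h3
    nlinarith
  rw [h1, ← h2, ← mul_pow]
  exact pow_le_pow_left₀ (norm_nonneg _) (U.le_opNorm _) 2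

/-- simply invariant kernel: the orbit tends to zero along some indices -/
lemma small_of_simply (U : E ι →L[ℂ] F) (R : E ι →ₗᵢ[ℂ] E ι)
    (hR : ∀ x ∈ N U, R x ∈ N U) (v : E ι) (hv : v ∈ N U) (hv' : ∀ x ∈ N U, R x ≠ v)
    (hcof : ∀ S : Finset ι, ∃ (k : ι) (j : ι → ℕ), Set.InjOn j S ∧ ∀ i ∈ S, (⇑R)^[j i] (e i) = e k)
    (ε : ℝ) (hε : 0 < ε) : ∃ k, ‖U (e k)‖ ^ 2 ≤ ‖U‖ ^ 2 * ε := by
  obtain ⟨w, hw, hw1, hperp⟩ := exists_wandering R (N U) hR v hv hv'
  have hsum : HasSum (fun i => ‖w i‖ ^ 2) 1 := by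
    have := (summable_sq w).hasSum
    rw [← norm_sq_eq, hw1, one_pow] at this
    exact this
  have hev := hsum.eventually (lt_mem_nhds (show 1 - ε < 1 by linarith))
  obtain ⟨S, hS⟩ := hev.exists
  obtain ⟨k, j, hj, hk⟩ := hcof S
  refine ⟨k, le_trans (norm_f_le U k) ?_⟩
  have hd := decay R (N U) hR w hw hw1 hperp S k j hj hk
  have : 1 - ‖P U (e k)‖ ^ 2 ≤ ε := by
    have : (P U (e k)) = (N U).starProjection (e k) := rfl
    rw [this]; linarith
  exact mul_le_mul_of_nonneg_left this (by positivity)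

/-- the bound on the span passes to all of little ell two -/
lemma N_inv_of_bdd (U : E ι →L[ℂ] F) (f : ι → F) (hU : ∀ k, U (e k) = f k) (next : ι → ι)
    (R : E ι →ₗᵢ[ℂ] E ι) (hRe : ∀ k, R (e k) = e (next k))
    (hT : BddShift next f) : ∀ x ∈ N U, R x ∈ N U := by
  obtain ⟨T, hT⟩ := hT
  have hspan : ∀ y ∈ Submodule.span ℂ (Set.range (e : ι → E ι)),
      ∃ s : Submodule.span ℂ (Set.range f), (s : F) = U y ∧ T s = U (R y) := by
    intro y hy
    induction hy using Submodule.span_induction with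
    | mem y hy =>
      obtain ⟨k, rfl⟩ := hy
      exact ⟨⟨f k, Submodule.subset_span ⟨k, rfl⟩⟩, (hU k).symm, by rw [hT, hRe, hU]⟩
    | zero => exact ⟨0, by simp, by simp⟩
    | add x y _ _ hx hy =>
      obtain ⟨s, hs1, hs2⟩ := hx
      obtain ⟨t, ht1, ht2⟩ := hy
      exact ⟨s + t, by simp [hs1, ht1], by simp [hs2, ht2]⟩
    | smul a x _ hx =>
      obtain ⟨s, hs1, hs2⟩ := hx
      exact ⟨a • s, by simp [hs1], by simp [hs2]⟩
  have hbound : ∀ y : E ι, ‖U (R y)‖ ≤ ‖T‖ * ‖U y‖ := by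
    intro y
    have hcl : IsClosed {y : E ι | ‖U (R y)‖ ≤ ‖T‖ * ‖U y‖} :=
      isClosed_le (by fun_prop) (by fun_prop)
    have hsub : ((Submodule.span ℂ (Set.range (e : ι → E ι))) : Set (E ι)) ⊆
        {y : E ι | ‖U (R y)‖ ≤ ‖T‖ * ‖U y‖} := by
      intro y hy
      obtain ⟨s, hs1, hs2⟩ := hspan y hy
      change ‖U (R y)‖ ≤ ‖T‖ * ‖U y‖
      rw [← hs1, ← hs2]
      exact T.le_opNorm s
    have hy : y ∈ closure ((Submodule.span ℂ (Set.range (e : ι → E ι))) : Set (E ι)) := by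
      rw [← Submodule.topologicalClosure_coe, top_le_iff.1 span_e]; trivial
    exact closure_minimal hsub hcl hy
  intro x hx
  rw [mem_N] at hx ⊢
  have := hbound x
  rw [hx, norm_zero, mul_zero] at this
  exact norm_le_zero_iff.1 this

end basis

/-- The growth contradiction. -/
lemma comb (σ : ℤ ≃ ℤ × ℤ) (κ : ℤ → ℝ) (B : ℤ × ℤ → ℝ)
    (h : ∀ k l, κ (l - k) = B (σ l - σ k)) (t : ℝ) (j0 : ℤ) (hj : j0 ≠ 0) (hj0 : κ j0 = t)
    (hfin : {j | κ j = t}.Finite) : False := by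
  obtain ⟨Mx, hMx⟩ : ∃ Mx : ℕ, ∀ j, κ j = t → |j| ≤ Mx := by
    obtain ⟨Mx, hMx⟩ := (hfin.image (fun j : ℤ => j.natAbs)).bddAbove
    refine ⟨Mx, fun j hjt => ?_⟩
    have := hMx ⟨j, hjt, rfl⟩
    rw [Int.abs_eq_natAbs]
    exact_mod_cast this
  have hMx1 : 1 ≤ Mx := by
    have := hMx j0 hj0
    have h2 := Int.one_le_abs hj
    omega
  have hstep : ∀ (v : ℤ × ℤ), B v = t → ∀ x : ℤ × ℤ, |σ.symm (x + v) - σ.symm x| ≤ Mx := by
    intro v hv x
    apply hMx
    rw [h]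
    simp only [Equiv.apply_symm_apply]
    rw [← hv]; congr 1; abel
  have hF : ∀ k, B (σ (k + j0) - σ k) = t := by
    intro k
    rw [← h, ← hj0]; congr 1; ring
  set a := σ j0 - σ 0 with ha
  have haF : B a = t := by
    have := hF 0; rwa [zero_add] at this
  have ha0 : a ≠ 0 := by
    intro h0
    exact hj (σ.injective (sub_eq_zero.1 h0))
  obtain ⟨b, hb, hdet⟩ : ∃ b, B b = t ∧ a.1 * b.2 - a.2 * b.1 ≠ 0 := by
    by_contra hno
    push Not at hno
    set ψ : ℤ → ℤ := fun k => a.1 * (σ k).2 - a.2 * (σ k).1 with hψ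
    have hper : Function.Periodic ψ j0 := by
      intro k
      have := hno _ (hF k)
      simp only [Prod.fst_sub, Prod.snd_sub] at this
      simp only [hψ]
      linarith
    have hfinr : (Set.range ψ).Finite := by
      apply Set.Finite.subset ((Set.finite_Ico (0:ℤ) |j0|).image ψ)
      rintro _ ⟨k, rfl⟩
      refine ⟨k % j0, ⟨Int.emod_nonneg _ hj, Int.emod_lt_abs _ hj⟩, ?_⟩
      have h1 : k = k % j0 + (k / j0) * j0 := by
        have := Int.emod_add_mul_ediv k j0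
        linarith
      conv_rhs => rw [h1]
      exact (hper.int_mul (k / j0) (k % j0)).symm
    obtain ⟨C, hC⟩ := hfinr.bddAbove
    have hpos : 0 < a.1 * a.1 + a.2 * a.2 := by
      by_contra hle
      push Not at hle
      have h1 : a.1 = 0 := by nlinarith [mul_self_nonneg a.1, mul_self_nonneg a.2]
      have h2 : a.2 = 0 := by nlinarith [mul_self_nonneg a.1, mul_self_nonneg a.2]
      exact ha0 (Prod.ext h1 h2)
    have h3 := hC ⟨σ.symm (-(a.2 * (|C| + 1)), a.1 * (|C| + 1)), rfl⟩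
    simp only [hψ, Equiv.apply_symm_apply] at h3
    have h4 : C ≤ |C| := le_abs_self C
    have h5 : 0 ≤ |C| := abs_nonneg C
    nlinarith
  -- counting
  set n := 4 * Mx with hn
  have hwalk : ∀ i j : ℕ, |σ.symm (σ 0 + (i : ℤ) • a + (j : ℤ) • b)| ≤ ((i + j) * Mx : ℕ) := by
    have h1 : ∀ i : ℕ, |σ.symm (σ 0 + (i : ℤ) • a)| ≤ (i * Mx : ℕ) := by
      intro i
      induction i with
      | zero => simp
      | succ i ih =>
        have h2 := hstep a haF (σ 0 + (i : ℤ) • a)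
        have h3 : σ 0 + (i : ℤ) • a + a = σ 0 + ((i + 1 : ℕ) : ℤ) • a := by
          push_cast; rw [add_smul, one_smul]; abel
        rw [h3] at h2
        have h4 := abs_sub_abs_le_abs_sub (σ.symm (σ 0 + ((i + 1 : ℕ) : ℤ) • a)) (σ.symm (σ 0 + (i : ℤ) • a))
        push_cast at *
        linarith
    intro i j
    induction j with
    | zero => simpa using h1 i
    | succ j ih =>
      have h2 := hstep b hb (σ 0 + (i : ℤ) • a + (j : ℤ) • b)
      have h3 : σ 0 + (i : ℤ) • a + (j : ℤ) • b + b = σ 0 + (i : ℤ) • a + ((j + 1 : ℕ) : ℤ) • b := by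
        push_cast; rw [add_smul, one_smul]; abel
      rw [h3] at h2
      have h4 := abs_sub_abs_le_abs_sub (σ.symm (σ 0 + (i : ℤ) • a + ((j + 1 : ℕ) : ℤ) • b)) (σ.symm (σ 0 + (i : ℤ) • a + (j : ℤ) • b))
      push_cast at *
      linarith
  have hcard := Finset.card_le_card_of_injOn (s := Finset.range (n + 1) ×ˢ Finset.range (n + 1))
    (t := Finset.Icc (-((2 * n * Mx : ℕ) : ℤ)) ((2 * n * Mx : ℕ) : ℤ))
    (fun p => σ.symm (σ 0 + (p.1 : ℤ) • a + (p.2 : ℤ) • b)) (by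
      rintro ⟨i, j⟩ hij
      simp only [Finset.coe_product, Finset.coe_range, Set.mem_prod, Set.mem_Iio] at hij
      have h1 := hwalk i j
      have h2 : (i + j) * Mx ≤ 2 * n * Mx := Nat.mul_le_mul_right _ (by omega)
      have h3 : |σ.symm (σ 0 + (i : ℤ) • a + (j : ℤ) • b)| ≤ ((2 * n * Mx : ℕ) : ℤ) :=
        le_trans h1 (by exact_mod_cast h2)
      simp only [Finset.coe_Icc, Set.mem_Icc]
      exact abs_le.1 h3) (by
      rintro ⟨i, j⟩ _ ⟨i', j'⟩ _ hij
      simp only at hij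
      have h1 := σ.symm.injective hij
      have h2 : (i : ℤ) • a + (j : ℤ) • b = (i' : ℤ) • a + (j' : ℤ) • b := by
        have := h1
        rw [add_assoc, add_assoc] at this
        exact add_left_cancel this
      have e1 := congrArg Prod.fst h2
      have e2 := congrArg Prod.snd h2
      simp only [Prod.fst_add, Prod.snd_add, Prod.smul_fst, Prod.smul_snd, smul_eq_mul] at e1 e2
      have d1 : ((i : ℤ) - i') * (a.1 * b.2 - a.2 * b.1) = 0 := by
        linear_combination b.2 * e1 - b.1 * e2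
      have d2 : ((j : ℤ) - j') * (a.1 * b.2 - a.2 * b.1) = 0 := by
        linear_combination a.1 * e2 - a.2 * e1
      rcases mul_eq_zero.1 d1 with h3 | h3
      · rcases mul_eq_zero.1 d2 with h4 | h4
        · ext <;> simp <;> omega
        · exact absurd h4 hdet
      · exact absurd h3 hdet)
  rw [Finset.card_product, Finset.card_range, Int.card_Icc] at hcard
  have h6 : (((2 * n * Mx : ℕ) : ℤ) + 1 - -((2 * n * Mx : ℕ) : ℤ)).toNat = 4 * n * Mx + 1 := by
    push_cast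
    have : (2 * (n:ℤ) * Mx + 1 - -(2 * n * Mx)) = ((4 * n * Mx + 1 : ℕ) : ℤ) := by push_cast; ring
    rw [this, Int.toNat_natCast]
  rw [h6, hn] at hcard
  nlinarith

end Pool.Agent.R579.Orbit
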