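import Pool.Agent.R579.Orbit

set_option autoImplicit false

namespace Pool.Agent.R579.Orbit

open scoped InnerProductSpace ENNReal
open Filter

section abstractThm

variable {F : Type*} [NormedAddCommGroup F] [InnerProductSpace ℂ F] [CompleteSpace F]

lemma iter_e {ι : Type*} [DecidableEq ι] (next : ι → ι) (R : E ι →ₗᵢ[ℂ] E ι)
    (hRe : ∀ k, R (e k) = e (next k)) (n : ℕ) (k : ι) : (⇑R)^[n] (e k) = e (next^[n] k) := by
  induction n generalizing k with
  | zero => rfl
  | succ n ih => rw [Function.iterate_succ_apply', ih, hRe, Function.iterate_succ_apply']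

/-- The orbit over the integers. -/
theorem no_bdd_Z (f : ℤ → F) (U : E ℤ →L[ℂ] F) (hU : ∀ k, U (e k) = f k)
    (x0 : E ℤ) (hx0 : U x0 = 0) (hx0' : x0 ≠ 0) (r : ℝ) (hr : 0 < r) (hfr : ∀ k, ‖f k‖ = r)
    (hT : BddShift (fun k => k + 1) f) (σ : ℤ ≃ ℤ × ℤ) (u : ℤ × ℤ → ℤ → ℂ)
    (hu : ∀ μ k, ‖u μ k‖ = 1)
    (hG : ∀ μ k l, ⟪u μ k • f (σ.symm (σ k + μ)), u μ l • f (σ.symm (σ l + μ))⟫_ℂ = ⟪f k, f l⟫_ℂ) :
    False := by
  obtain ⟨V1, hV1⟩ := exists_V (ι := ℤ) (Equiv.addRight 1) (fun _ => 1) (by simp)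
  set R : E ℤ →ₗᵢ[ℂ] E ℤ := V1.toLinearIsometry with hR
  have hRe : ∀ k, R (e k) = e (k + 1) := by
    intro k
    have := hV1 k
    change V1 (e k) = e (k + 1)
    simpa using this
  have hRN := N_inv_of_bdd U f hU (fun k => k + 1) R hRe hT
  by_cases hsurj : ∀ v ∈ N U, ∃ x ∈ N U, R x = v
  · -- doubly invariant
    have hV1N : ∀ x, x ∈ N U ↔ V1 x ∈ N U := by
      intro x
      constructor
      · exact hRN x
      · intro hx
        obtain ⟨x', hx', hxx⟩ := hsurj _ hx
        have : x' = x := V1.injective hxx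
        rwa [this] at hx'
    set K : ℤ → ℤ → ℝ := fun k l => ‖⟪e l, P U (e k)⟫_ℂ‖ with hK
    have hK1 : ∀ k l, K (k + 1) (l + 1) = K k l := fun k l =>
      K_inv U V1 hV1N (fun k => k + 1) (fun _ => 1) (by simp) (fun k => by simpa using hV1 k) k l
    have hKn : ∀ (n : ℕ) (k l : ℤ), K (k + n) (l + n) = K k l := by
      intro n
      induction n with
      | zero => intro k l; simp
      | succ n ih =>
        intro k l
        have h1 := hK1 (k + n) (l + n)
        rw [ih] at h1
        rw [← h1]; push_cast; congr 1 <;> ring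
    have hKd : ∀ k l, K k l = K 0 (l - k) := by
      intro k l
      rcases le_total 0 k with h | h
      · obtain ⟨n, rfl⟩ := Int.eq_ofNat_of_zero_le h
        have := hKn n 0 (l - n)
        rw [zero_add, sub_add_cancel] at this
        exact this
      · obtain ⟨n, hn⟩ := Int.eq_ofNat_of_zero_le (neg_nonneg.2 h)
        have := hKn n k l
        rw [← this]
        congr 1 <;> omega
    have hKσ : ∀ μ k l, K (σ.symm (σ k + μ)) (σ.symm (σ l + μ)) = K k l := by
      intro μ k l
      set τ : ℤ ≃ ℤ := σ.trans ((Equiv.addRight μ).trans σ.symm) with hτ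
      have hτk : ∀ k, τ k = σ.symm (σ k + μ) := fun k => rfl
      obtain ⟨V, hV⟩ := exists_V τ (u μ) (hu μ)
      have hVN := N_inv_of_gram U V (by
        intro k l
        rw [hV, hV, map_smul, map_smul, hU, hU, hU, hU, hτk, hτk]
        exact hG μ k l)
      exact K_inv U V hVN τ (u μ) (hu μ) hV k l
    set B : ℤ × ℤ → ℝ := fun v => K (σ.symm 0) (σ.symm v) with hB
    have hKB : ∀ k l, K 0 (l - k) = B (σ l - σ k) := by
      intro k l
      rw [← hKd, ← hKσ (-σ k) k l]
      simp only [hB, add_neg_cancel, ← sub_eq_add_neg]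
    -- an off-diagonal entry
    obtain ⟨j0, hj0, hj0'⟩ : ∃ j0, j0 ≠ 0 ∧ K 0 j0 ≠ 0 := by
      by_contra hno
      push Not at hno
      have hoff : ∀ k l, l ≠ k → ⟪e l, P U (e k)⟫_ℂ = 0 := by
        intro k l hlk
        have : K k l = 0 := by rw [hKd]; exact hno _ (sub_ne_zero.2 hlk)
        exact norm_eq_zero.1 this
      have hdiag : ∀ k, P U (e k) = ⟪e k, P U (e k)⟫_ℂ • e k := by
        intro k
        ext l
        rw [← inner_e_left, lp.coeFn_smul, Pi.smul_apply, e_apply]
        by_cases h : l = k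
        · subst h; simp
        · rw [hoff k l h]; simp [h]
      have hPP : ∀ x, P U (P U x) = P U x := by
        intro x
        exact Submodule.starProjection_eq_self_iff.2 (Submodule.starProjection_apply_mem (N U) x)
      have ha : ∀ k, ⟪e k, P U (e k)⟫_ℂ = 0 ∨ ⟪e k, P U (e k)⟫_ℂ = 1 := by
        intro k
        set z := ⟪(e k : E ℤ), P U (e k)⟫_ℂ with hz
        have h1 := hPP (e k)
        rw [hdiag k, map_smul, hdiag k, ← hz, smul_smul] at h1
        have h2 := congrArg (fun x : E ℤ => ⟪e k, x⟫_ℂ) h1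
        simp only [inner_smul_right, inner_e_left, e_apply, if_true, mul_one] at h2
        have h3 : z * (z - 1) = 0 := by linear_combination h2
        rcases mul_eq_zero.1 h3 with h | h
        · left; exact h
        · right; linear_combination h
      rcases ha 0 with h0 | h0
      · have hall : ∀ k, P U (e k) = 0 := by
          intro k
          have h1 : K k k = K 0 0 := by rw [hKd]; simp
          have h2 : K 0 0 = 0 := by simp only [hK]; rw [h0]; simp
          rw [h2] at h1
          rw [hdiag k, norm_eq_zero.1 h1, zero_smul]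
        have hP0 : P U = 0 := clm_ext (fun k => by rw [hall]; rfl)
        have h3 : P U x0 = x0 := Submodule.starProjection_eq_self_iff.2 hx0
        rw [hP0] at h3
        exact hx0' h3.symm
      · have h1 := hdiag 0
        rw [h0, one_smul] at h1
        have h2 : (e 0 : E ℤ) ∈ N U := Submodule.starProjection_eq_self_iff.1 h1
        rw [mem_N, hU] at h2
        have := hfr 0
        rw [h2, norm_zero] at this
        linarith
    have hpos : 0 < K 0 j0 := lt_of_le_of_ne (norm_nonneg _) (Ne.symm hj0')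
    have hfin : {j | K 0 j = K 0 j0}.Finite := by
      have hs : Summable (fun j => (K 0 j) ^ 2) := by
        have := summable_sq (P U (e 0))
        refine this.congr fun j => ?_
        simp only [hK]; rw [inner_e_left]
      have ht := hs.tendsto_cofinite_zero
      have hev := ht.eventually (gt_mem_nhds (show 0 < (K 0 j0) ^ 2 by positivity))
      rw [Filter.eventually_cofinite] at hev
      refine hev.subset ?_
      intro j hj
      simp only [Set.mem_setOf_eq] at hj ⊢
      rw [hj]; exact lt_irrefl _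
    exact comb σ (K 0) B hKB (K 0 j0) j0 hj0 rfl hfin
  · push Not at hsurj
    obtain ⟨v, hv, hv'⟩ := hsurj
    have hcof : ∀ S : Finset ℤ, ∃ (k : ℤ) (j : ℤ → ℕ), Set.InjOn j S ∧
        ∀ i ∈ S, (⇑R)^[j i] (e i) = e k := by
      intro S
      obtain ⟨k, hk⟩ := S.exists_le
      refine ⟨k, fun i => (k - i).toNat, ?_, ?_⟩
      · intro i hi i' hi' h
        have h1 := hk i hi
        have h2 := hk i' hi'
        simp only at h
        omega
      · intro i hi
        rw [iter_e (fun k => k + 1) R hRe]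
        congr 1
        have : ∀ (n : ℕ) (i : ℤ), (fun k : ℤ => k + 1)^[n] i = i + n := by
          intro n
          induction n with
          | zero => intro i; simp
          | succ n ih => intro i; rw [Function.iterate_succ_apply', ih]; push_cast; ring
        rw [this]
        have h1 := hk i hi
        change i + (((k - i).toNat : ℕ) : ℤ) = k
        omega
    obtain ⟨k, hk⟩ := small_of_simply U R hRN v hv hv' hcof (r ^ 2 / (2 * (‖U‖ ^ 2 + 1))) (by positivity)
    rw [hU, hfr] at hk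
    have h1 : ‖U‖ ^ 2 * (r ^ 2 / (2 * (‖U‖ ^ 2 + 1))) ≤ r ^ 2 / 2 := by
      rw [← mul_div_assoc, div_le_div_iff₀ (by positivity) (by positivity)]
      nlinarith [sq_nonneg r, sq_nonneg ‖U‖]
    nlinarith [sq_pos_of_pos hr]

/-- The orbit over the naturals. -/
theorem no_bdd_N (f : ℕ → F) (U : E ℕ →L[ℂ] F) (hU : ∀ k, U (e k) = f k)
    (x0 : E ℕ) (hx0 : U x0 = 0) (hx0' : x0 ≠ 0) (r : ℝ) (hr : 0 < r) (hfr : ∀ k, ‖f k‖ = r)
    (hT : BddShift (fun k => k + 1) f) : False := by
  obtain ⟨R, hRe⟩ := exists_iso (ι := ℕ) (fun k => k + 1) (fun a b h => by simpa using h)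
  have hRN := N_inv_of_bdd U f hU (fun k => k + 1) R hRe hT
  have hR0 : ∀ x : E ℕ, (R x) 0 = 0 := by
    intro x
    have h1 : (innerSL ℂ (e 0 : E ℕ)) ∘L R.toContinuousLinearMap = 0 := by
      apply clm_ext
      intro k
      simp only [ContinuousLinearMap.comp_apply, LinearIsometry.coe_toContinuousLinearMap, hRe,
        innerSL_apply_apply, inner_e_left, e_apply, zero_apply]
      simp
    have h2 : (innerSL ℂ (e 0 : E ℕ)) (R x) = 0 := by
      have := congrArg (fun T : E ℕ →L[ℂ] ℂ => T x) h1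
      simpa using this
    rwa [innerSL_apply_apply, inner_e_left] at h2
  have hRs : ∀ (x : E ℕ) m, (R x) (m + 1) = x m := by
    intro x m
    rw [← inner_e_left, ← hRe, R.inner_map_map, inner_e_left]
  have hex : ∃ v ∈ N U, ∀ x ∈ N U, R x ≠ v := by
    by_contra hno
    push Not at hno
    have hz : ∀ m : ℕ, ∀ v ∈ N U, v m = 0 := by
      intro m
      induction m with
      | zero => intro v hv; obtain ⟨x, _, rfl⟩ := hno v hv; exact hR0 x
      | succ m ih => intro v hv; obtain ⟨x, hx, rfl⟩ := hno v hv; rw [hRs]; exact ih x hx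
    apply hx0'
    ext m
    exact hz m x0 hx0
  obtain ⟨v, hv, hv'⟩ := hex
  have hcof : ∀ S : Finset ℕ, ∃ (k : ℕ) (j : ℕ → ℕ), Set.InjOn j S ∧
      ∀ i ∈ S, (⇑R)^[j i] (e i) = e k := by
    intro S
    obtain ⟨k, hk⟩ := S.exists_le
    refine ⟨k, fun i => k - i, ?_, ?_⟩
    · intro i hi i' hi' h
      have h1 := hk i hi
      have h2 := hk i' hi'
      simp only at h
      omega
    · intro i hi
      rw [iter_e (fun k => k + 1) R hRe]
      congr 1
      have : ∀ (n : ℕ) (i : ℕ), (fun k : ℕ => k + 1)^[n] i = i + n := by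
        intro n
        induction n with
        | zero => intro i; simp
        | succ n ih => intro i; rw [Function.iterate_succ_apply', ih]; ring
      rw [this]
      have h1 := hk i hi
      change i + (k - i) = k
      omega
  obtain ⟨k, hk⟩ := small_of_simply U R hRN v hv hv' hcof (r ^ 2 / (2 * (‖U‖ ^ 2 + 1))) (by positivity)
  rw [hU, hfr] at hk
  have h1 : ‖U‖ ^ 2 * (r ^ 2 / (2 * (‖U‖ ^ 2 + 1))) ≤ r ^ 2 / 2 := by
    rw [← mul_div_assoc, div_le_div_iff₀ (by positivity) (by positivity)]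
    nlinarith [sq_nonneg r, sq_nonneg ‖U‖]
  nlinarith [sq_pos_of_pos hr]

end abstractThm

section frames

variable {F : Type*} [NormedAddCommGroup F] [InnerProductSpace ℂ F] [CompleteSpace F]
variable {ι : Type*} [DecidableEq ι]

lemma exists_synthesis (f : ι → F) (hf : IsFrame f) :
    ∃ U : E ι →L[ℂ] F, (∀ k, U (e k) = f k) ∧ ∃ A : ℝ, 0 < A ∧ ∀ h, A * ‖h‖ ^ 2 ≤ ‖U.adjoint h‖ ^ 2 := by
  obtain ⟨A, B, hA, hB, h⟩ := hf
  set An := analysis f (fun h' => (h h').1) B (fun h' => (h h').2.2) with hAn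
  have hAe : ∀ h k, An h k = ⟪f k, h⟫_ℂ := fun h k => rfl
  refine ⟨An.adjoint, ?_, A, hA, ?_⟩
  · intro k
    refine ext_inner_right ℂ fun x => ?_
    rw [ContinuousLinearMap.adjoint_inner_left, inner_e_left, hAe]
  · intro x
    rw [ContinuousLinearMap.adjoint_adjoint, norm_sq_eq]
    exact (h x).2.1

lemma U_sum (f : ι → F) (U : E ι →L[ℂ] F) (hU : ∀ k, U (e k) = f k) (c : ι →₀ ℂ) :
    U (c.sum (fun k z => z • (e k : E ι))) = c.sum (fun k z => z • f k) := by
  rw [Finsupp.sum, Finsupp.sum, map_sum]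
  refine Finset.sum_congr rfl fun k _ => ?_
  rw [map_smul, hU]

lemma norm_sum_e (c : ι →₀ ℂ) : ‖c.sum (fun k z => z • (e k : E ι))‖ ^ 2 = c.sum (fun _ z => ‖z‖ ^ 2) := by
  have h1 : ⟪c.sum (fun k z => z • (e k : E ι)), c.sum (fun k z => z • (e k : E ι))⟫_ℂ =
      ((c.sum (fun _ z => ‖z‖ ^ 2) : ℝ) : ℂ) := by
    rw [Finsupp.sum, Finsupp.sum, orthonormal_e.inner_sum]
    push_cast
    refine Finset.sum_congr rfl fun k _ => ?_
    rw [← Complex.normSq_eq_conj_mul_self, Complex.normSq_eq_norm_sq]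
    push_cast; rfl
  rw [inner_self_eq_norm_sq_to_K] at h1
  apply Complex.ofReal_injective
  rw [← h1]; push_cast; rfl

lemma isRiesz_of_inj (f : ι → F) (U : E ι →L[ℂ] F) (hU : ∀ k, U (e k) = f k) (A : ℝ) (hA : 0 < A)
    (hlow : ∀ h, A * ‖h‖ ^ 2 ≤ ‖U.adjoint h‖ ^ 2) (hinj : ∀ x, U x = 0 → x = 0) : IsRieszBasis f := by
  have hadj : ∀ h k, (U.adjoint h) k = ⟪f k, h⟫_ℂ := by
    intro h k
    rw [← inner_e_left, ContinuousLinearMap.adjoint_inner_right, hU]
  constructor
  · rw [Submodule.topologicalClosure_eq_top_iff, Submodule.eq_bot_iff]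
    intro x hx
    have h1 : U.adjoint x = 0 := by
      ext k
      rw [hadj]
      exact (Submodule.mem_orthogonal _ _).1 hx (f k) (Submodule.subset_span ⟨k, rfl⟩)
    have h2 := hlow x
    rw [h1, norm_zero] at h2
    have h3 : ‖x‖ ^ 2 ≤ 0 := by
      by_contra h4
      push Not at h4
      have := mul_pos hA h4
      simp at h2
      linarith
    exact norm_eq_zero.1 (pow_eq_zero_iff two_ne_zero |>.1 (le_antisymm h3 (by positivity)))
  · -- surjectivity of the adjoint
    have hbd : ∀ h, Real.sqrt A * ‖h‖ ≤ ‖U.adjoint h‖ := by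
      intro h
      apply le_of_sq_le_sq _ (norm_nonneg _)
      rw [mul_pow, Real.sq_sqrt hA.le]
      exact hlow h
    have hsA : 0 < Real.sqrt A := Real.sqrt_pos.2 hA
    have hcl : IsClosed ((LinearMap.range (U.adjoint : F →ₗ[ℂ] E ι)) : Set (E ι)) := by
      have hanti : AntilipschitzWith (Real.toNNReal (Real.sqrt A)⁻¹) U.adjoint := by
        refine AddMonoidHomClass.antilipschitz_of_bound U.adjoint fun x => ?_
        rw [Real.coe_toNNReal _ (by positivity)]
        rw [inv_mul_eq_div, le_div_iff₀ hsA, mul_comm]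
        exact hbd x
      exact hanti.isClosed_range U.adjoint.uniformContinuous
    have hdense : (LinearMap.range (U.adjoint : F →ₗ[ℂ] E ι)).topologicalClosure = ⊤ := by
      rw [Submodule.topologicalClosure_eq_top_iff, Submodule.eq_bot_iff]
      intro x hx
      apply hinj
      have h1 : ∀ y, ⟪y, U x⟫_ℂ = 0 := by
        intro y
        rw [← ContinuousLinearMap.adjoint_inner_left]
        exact (Submodule.mem_orthogonal _ _).1 hx _ ⟨y, rfl⟩
      exact inner_self_eq_zero.1 (h1 (U x))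
    have hrange : (LinearMap.range (U.adjoint : F →ₗ[ℂ] E ι)) = ⊤ := by
      rw [← hdense]
      exact (IsClosed.submodule_topologicalClosure_eq hcl).symm
    have hlower : ∀ c : E ι, A * ‖c‖ ^ 2 ≤ ‖U c‖ ^ 2 := by
      intro c
      obtain ⟨h, hh⟩ : c ∈ (LinearMap.range (U.adjoint : F →ₗ[ℂ] E ι)) := by rw [hrange]; trivial
      have hh' : U.adjoint h = c := hh
      have h1 : ‖c‖ ^ 2 ≤ ‖h‖ * ‖U c‖ := by
        have h2 : ⟪c, c⟫_ℂ = ⟪h, U c⟫_ℂ := by
          rw [← ContinuousLinearMap.adjoint_inner_left, hh']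
        have h3 := norm_inner_le_norm (𝕜 := ℂ) h (U c)
        rw [← h2, inner_self_eq_norm_sq_to_K] at h3
        simpa using h3
      have h2 := hbd h
      rw [hh'] at h2
      have h3 : Real.sqrt A * ‖c‖ ≤ ‖U c‖ := by
        by_cases hc : ‖c‖ = 0
        · rw [hc]; simp
        · have hc' : 0 < ‖c‖ := lt_of_le_of_ne (norm_nonneg _) (Ne.symm hc)
          have h4 : Real.sqrt A * ‖c‖ ^ 2 ≤ ‖c‖ * ‖U c‖ := by
            calc Real.sqrt A * ‖c‖ ^ 2 ≤ Real.sqrt A * (‖h‖ * ‖U c‖) :=
                  mul_le_mul_of_nonneg_left h1 hsA.le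
              _ = (Real.sqrt A * ‖h‖) * ‖U c‖ := by ring
              _ ≤ ‖c‖ * ‖U c‖ := mul_le_mul_of_nonneg_right h2 (norm_nonneg _)
          have h5 : ‖c‖ * (Real.sqrt A * ‖c‖) ≤ ‖c‖ * ‖U c‖ := by linarith [h4, show ‖c‖ * (Real.sqrt A * ‖c‖) = Real.sqrt A * ‖c‖ ^ 2 by ring]
          exact le_of_mul_le_mul_left h5 hc'
      calc A * ‖c‖ ^ 2 = (Real.sqrt A * ‖c‖) ^ 2 := by rw [mul_pow, Real.sq_sqrt hA.le]
        _ ≤ ‖U c‖ ^ 2 := pow_le_pow_left₀ (by positivity) h3 2
    refine ⟨A, ‖U‖ ^ 2 + 1, hA, by positivity, fun c => ?_⟩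
    rw [← U_sum f U hU, ← norm_sum_e]
    refine ⟨hlower _, ?_⟩
    calc ‖U (c.sum (fun k z => z • (e k : E ι)))‖ ^ 2 ≤ (‖U‖ * ‖c.sum (fun k z => z • (e k : E ι))‖) ^ 2 :=
          pow_le_pow_left₀ (norm_nonneg _) (U.le_opNorm _) 2
      _ = ‖U‖ ^ 2 * ‖c.sum (fun k z => z • (e k : E ι))‖ ^ 2 := by ring
      _ ≤ (‖U‖ ^ 2 + 1) * ‖c.sum (fun k z => z • (e k : E ι))‖ ^ 2 := by
          apply mul_le_mul_of_nonneg_right _ (by positivity); linarith

end frames

end Pool.Agent.R579.Orbit
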