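import Mathlib

set_option autoImplicit false
open Filter Topology

namespace Pool.Agent.R579.SW

/-- the low pass filter -/
noncomputable def m (y : ℝ) : ℝ :=
  Real.sin (Real.pi / 2 * Real.smoothTransition
    ((√2 * Real.cos (2 * Real.pi * (y + 1 / 24)) + 1) / 2))

theorem m_contDiff : ContDiff ℝ (⊤ : ℕ∞) m := by
  unfold m
  apply Real.contDiff_sin.comp
  apply contDiff_const.mul
  apply Real.smoothTransition.contDiff.comp
  apply ContDiff.div_const
  apply ContDiff.add _ contDiff_const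
  apply contDiff_const.mul
  apply Real.contDiff_cos.comp
  fun_prop

theorem m_per (y : ℝ) : m (y + 1) = m y := by
  unfold m
  have : 2 * Real.pi * (y + 1 + 1 / 24) = 2 * Real.pi * (y + 1 / 24) + 2 * Real.pi := by ring
  rw [this, Real.cos_add_two_pi]

theorem m_int (y : ℝ) (n : ℤ) : m (y + n) = m y := by
  have hp : Function.Periodic m 1 := m_per
  have := hp.int_mul n y
  simpa using this

theorem st_symm (t : ℝ) : Real.smoothTransition (1 - t) = 1 - Real.smoothTransition t := by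
  unfold Real.smoothTransition
  have h := Real.smoothTransition.pos_denom t
  rw [sub_sub_cancel, eq_sub_iff_add_eq]
  have h2 : expNegInvGlue (1 - t) + expNegInvGlue t = expNegInvGlue t + expNegInvGlue (1 - t) :=
    add_comm _ _
  rw [h2, ← add_div, add_comm (expNegInvGlue (1 - t)) (expNegInvGlue t), div_self h.ne']

theorem m_qmf (y : ℝ) : m y ^ 2 + m (y + 1 / 2) ^ 2 = 1 := by
  unfold m
  have h1 : 2 * Real.pi * (y + 1 / 2 + 1 / 24) = 2 * Real.pi * (y + 1 / 24) + Real.pi := by ring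
  rw [h1, Real.cos_add_pi]
  set c := Real.cos (2 * Real.pi * (y + 1 / 24))
  have h2 : (√2 * -c + 1) / 2 = 1 - (√2 * c + 1) / 2 := by ring
  rw [h2, st_symm]
  set θ := Real.smoothTransition ((√2 * c + 1) / 2)
  have h3 : Real.pi / 2 * (1 - θ) = Real.pi / 2 - Real.pi / 2 * θ := by ring
  rw [h3, Real.sin_pi_div_two_sub]
  exact Real.sin_sq_add_cos_sq _

theorem m_abs_le (y : ℝ) : |m y| ≤ 1 := Real.abs_sin_le_one _

theorem sqrt2_sq : √2 * (√2 / 2) = 1 := by
  rw [← mul_div_assoc, Real.mul_self_sqrt (by norm_num)]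
  norm_num

/-- zeros of the filter -/
theorem m_zero {y : ℝ} (h1 : 1 / 3 ≤ y) (h2 : y ≤ 7 / 12) : m y = 0 := by
  unfold m
  rw [Real.smoothTransition.zero_of_nonpos, mul_zero, Real.sin_zero]
  have h3 : Real.cos (2 * Real.pi * (y + 1 / 24)) ≤ -(√2 / 2) := by
    have h4 : 2 * Real.pi * (y + 1 / 24) = 2 * Real.pi * (y - 11 / 24) + Real.pi := by ring
    rw [h4, Real.cos_add_pi, neg_le_neg_iff, ← Real.cos_pi_div_four, ← Real.cos_abs
      (2 * Real.pi * (y - 11 / 24))]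
    apply Real.cos_le_cos_of_nonneg_of_le_pi (abs_nonneg _) (by linarith [Real.pi_pos])
    rw [abs_mul, abs_of_pos (by positivity)]
    have h5 : |y - 11 / 24| ≤ 1 / 8 := by
      rw [abs_le]; constructor <;> linarith
    have := Real.pi_pos
    nlinarith
  have h4 : √2 * Real.cos (2 * Real.pi * (y + 1 / 24)) ≤ √2 * -(√2 / 2) :=
    mul_le_mul_of_nonneg_left h3 (Real.sqrt_nonneg _)
  have h5 := sqrt2_sq
  linarith

/-- the filter does not vanish elsewhere -/
theorem m_ne_zero {y : ℝ} (h1 : -(5 / 12) < y) (h2 : y < 1 / 3) : m y ≠ 0 := by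
  unfold m
  have h3 : -(√2 / 2) < Real.cos (2 * Real.pi * (y + 1 / 24)) := by
    have h4 : -(√2 / 2) = Real.cos (Real.pi - Real.pi / 4) := by
      rw [Real.cos_pi_sub, Real.cos_pi_div_four]
    rw [h4, ← Real.cos_abs (2 * Real.pi * (y + 1 / 24))]
    apply Real.cos_lt_cos_of_nonneg_of_le_pi (abs_nonneg _) (by linarith [Real.pi_pos])
    rw [abs_mul, abs_of_pos (by positivity)]
    have h5 : |y + 1 / 24| < 3 / 8 := by
      rw [abs_lt]; constructor <;> linarith
    have := Real.pi_pos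
    nlinarith
  have h4 : √2 * -(√2 / 2) < √2 * Real.cos (2 * Real.pi * (y + 1 / 24)) :=
    mul_lt_mul_of_pos_left h3 (Real.sqrt_pos.2 (by norm_num))
  have h5 := sqrt2_sq
  have h6 : 0 < Real.smoothTransition ((√2 * Real.cos (2 * Real.pi * (y + 1 / 24)) + 1) / 2) :=
    Real.smoothTransition.pos_of_pos (by linarith)
  have h7 := Real.smoothTransition.le_one ((√2 * Real.cos (2 * Real.pi * (y + 1 / 24)) + 1) / 2)
  apply ne_of_gt
  have := Real.pi_pos
  apply Real.sin_pos_of_pos_of_lt_pi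
  · positivity
  · nlinarith

/-- the filter is one near the integers -/
theorem m_one {y : ℝ} (h1 : -(1 / 6) ≤ y) (h2 : y ≤ 1 / 12) : m y = 1 := by
  unfold m
  rw [Real.smoothTransition.one_of_one_le, mul_one, Real.sin_pi_div_two]
  have h3 : √2 / 2 ≤ Real.cos (2 * Real.pi * (y + 1 / 24)) := by
    rw [← Real.cos_pi_div_four, ← Real.cos_abs (2 * Real.pi * (y + 1 / 24))]
    apply Real.cos_le_cos_of_nonneg_of_le_pi (abs_nonneg _) (by linarith [Real.pi_pos])
    rw [abs_mul, abs_of_pos (by positivity)]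
    have h5 : |y + 1 / 24| ≤ 1 / 8 := by
      rw [abs_le]; constructor <;> linarith
    have := Real.pi_pos
    nlinarith
  have h4 : √2 * (√2 / 2) ≤ √2 * Real.cos (2 * Real.pi * (y + 1 / 24)) :=
    mul_le_mul_of_nonneg_left h3 (Real.sqrt_nonneg _)
  have h5 := sqrt2_sq
  linarith

/-- bounded derivatives of periodic smooth functions -/
theorem bdd_of_per {E : Type*} [NormedAddCommGroup E] [NormedSpace ℝ E] {f : ℝ → E}
    (hf : ContDiff ℝ (⊤ : ℕ∞) f) (hp : ∀ y, f (y + 1) = f y) (n : ℕ) :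
    ∃ C : ℝ, ∀ y, ‖iteratedFDeriv ℝ n f y‖ ≤ C := by
  have hc : Continuous (iteratedFDeriv ℝ n f) := hf.continuous_iteratedFDeriv (by exact_mod_cast le_top)
  obtain ⟨C, hC⟩ := (isCompact_Icc (a := (0:ℝ)) (b := 1)).exists_bound_of_continuousOn
    hc.continuousOn
  have hper : Function.Periodic (iteratedFDeriv ℝ n f) 1 := by
    intro y
    rw [← iteratedFDeriv_comp_add_right]
    congr 1
    ext z
    exact hp z
  refine ⟨C, fun y => ?_⟩
  obtain ⟨z, hz, hyz⟩ := hper.exists_mem_Ico₀ one_pos y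
  rw [hyz]
  exact hC z ⟨hz.1, hz.2.le⟩

/-- partial products -/
noncomputable def P (N : ℕ) (y : ℝ) : ℝ := ∏ j ∈ Finset.range N, m (y / 2 ^ (j + 1))

/-- the scaling function -/
noncomputable def g (y : ℝ) : ℝ := P ⌈12 * |y|⌉₊ y

theorem P_abs_le (N : ℕ) (y : ℝ) : |P N y| ≤ 1 := by
  unfold P
  rw [Finset.abs_prod]
  exact Finset.prod_le_one (fun _ _ => abs_nonneg _) fun _ _ => m_abs_le _

theorem P_stable {N N' : ℕ} {y : ℝ} (h : 6 * |y| ≤ 2 ^ N) (hN : N ≤ N') : P N' y = P N y := by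
  obtain ⟨k, rfl⟩ := Nat.exists_eq_add_of_le hN
  unfold P
  rw [Finset.prod_range_add]
  have : ∀ j ∈ Finset.range k, m (y / 2 ^ (N + j + 1)) = 1 := by
    intro j _
    have h1 : |y / 2 ^ (N + j + 1)| ≤ 1 / 12 := by
      rw [abs_div, abs_of_pos (by positivity : (0:ℝ) < 2 ^ (N + j + 1)), div_le_iff₀ (by positivity)]
      have h2 : (2:ℝ) ^ N ≤ 2 ^ (N + j) := pow_le_pow_right₀ (by norm_num) (by omega)
      rw [pow_succ]
      linarith
    rw [abs_le] at h1
    exact m_one (by linarith [h1.1]) h1.2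
  rw [Finset.prod_congr rfl this]
  simp

theorem g_eq {N : ℕ} {y : ℝ} (h : 6 * |y| ≤ 2 ^ N) : g y = P N y := by
  unfold g
  have h1 : 6 * |y| ≤ 2 ^ ⌈12 * |y|⌉₊ := by
    have h2 : 12 * |y| ≤ ⌈12 * |y|⌉₊ := Nat.le_ceil _
    have h3 : ((⌈12 * |y|⌉₊ : ℕ) : ℝ) < 2 ^ ⌈12 * |y|⌉₊ := by
      exact_mod_cast Nat.lt_two_pow_self
    have := abs_nonneg y
    linarith
  rcases le_total N ⌈12 * |y|⌉₊ with h2 | h2
  · exact P_stable h h2
  · exact (P_stable h1 h2).symm

theorem exists_pow (y : ℝ) : ∃ N : ℕ, 6 * |y| ≤ 2 ^ N := by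
  refine ⟨⌈6 * |y|⌉₊, ?_⟩
  have h2 : 6 * |y| ≤ ⌈6 * |y|⌉₊ := Nat.le_ceil _
  have h3 : ((⌈6 * |y|⌉₊ : ℕ) : ℝ) < 2 ^ ⌈6 * |y|⌉₊ := by
    exact_mod_cast Nat.lt_two_pow_self
  linarith

theorem g_abs_le (y : ℝ) : |g y| ≤ 1 := P_abs_le _ _

theorem P_succ' (N : ℕ) (y : ℝ) : P (N + 1) (2 * y) = m y * P N y := by
  unfold P
  rw [Finset.prod_range_succ', mul_comm]
  congr 1
  · congr 1
    norm_num
  · apply Finset.prod_congr rfl
    intro j _
    congr 1
    rw [pow_succ (2:ℝ) (j + 1)]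
    field_simp

theorem g_two (y : ℝ) : g (2 * y) = m y * g y := by
  obtain ⟨N, hN⟩ := exists_pow y
  rw [g_eq hN, ← P_succ' N y, g_eq]
  rw [abs_mul, abs_of_pos (by norm_num : (0:ℝ) < 2), pow_succ]
  linarith

theorem P_contDiff (N : ℕ) : ContDiff ℝ (⊤ : ℕ∞) (P N) := by
  unfold P
  apply contDiff_prod
  intro j _
  exact m_contDiff.comp (contDiff_id.div_const _)

theorem g_contDiff : ContDiff ℝ (⊤ : ℕ∞) g := by
  rw [contDiff_iff_contDiffAt]
  intro y
  obtain ⟨N, hN⟩ := exists_pow (|y| + 1)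
  refine (P_contDiff N).contDiffAt.congr_of_eventuallyEq ?_
  have : ∀ᶠ z in 𝓝 y, |z| < |y| + 1 := (continuous_abs.tendsto y).eventually (gt_mem_nhds (by linarith))
  filter_upwards [this] with z hz
  apply g_eq
  rw [abs_of_pos (by positivity)] at hN
  linarith

theorem g_scale (N : ℕ) (y : ℝ) : g y = P N y * g (y / 2 ^ N) := by
  induction N with
  | zero => simp [P]
  | succ N ih =>
    have h1 : P (N + 1) y = P N y * m (y / 2 ^ (N + 1)) := by
      unfold P; rw [Finset.prod_range_succ]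
    rw [h1, ih, mul_assoc, ← g_two]
    congr 2
    rw [pow_succ]
    field_simp

end Pool.Agent.R579.SW
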