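import Pool.Agent.R579.SWa

set_option autoImplicit false
open Filter Topology

namespace Pool.Agent.R579.SW

/-- forward products -/
noncomputable def Q (J : ℕ) (x : ℝ) : ℝ := ∏ i ∈ Finset.range J, m (2 ^ i * x)

theorem Q_contDiff (J : ℕ) : ContDiff ℝ (⊤ : ℕ∞) (Q J) := by
  unfold Q
  apply contDiff_prod
  intro j _
  exact m_contDiff.comp (contDiff_const.mul contDiff_id)

theorem Q_abs_le (J : ℕ) (x : ℝ) : |Q J x| ≤ 1 := by
  unfold Q
  rw [Finset.abs_prod]
  exact Finset.prod_le_one (fun _ _ => abs_nonneg _) fun _ _ => m_abs_le _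

theorem g_pow (J : ℕ) (x : ℝ) : g (2 ^ J * x) = Q J x * g x := by
  induction J with
  | zero => simp [Q]
  | succ J ih =>
    have h1 : (2:ℝ) ^ (J + 1) * x = 2 * (2 ^ J * x) := by rw [pow_succ]; ring
    rw [h1, g_two, ih]
    unfold Q
    rw [Finset.prod_range_succ]
    ring

theorem scale_bd {f : ℝ → ℝ} (hf : ContDiff ℝ (⊤ : ℕ∞) f) {n : ℕ} (c : ℝ) (x : ℝ) :
    ‖iteratedFDeriv ℝ n (fun z => f (c * z)) x‖ = |c| ^ n * ‖iteratedFDeriv ℝ n f (c * x)‖ := by
  rw [norm_iteratedFDeriv_eq_norm_iteratedDeriv, norm_iteratedFDeriv_eq_norm_iteratedDeriv,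
    iteratedDeriv_comp_const_mul (hf.of_le (by exact_mod_cast le_top))]
  simp

theorem Q_bd (n : ℕ) : ∃ C : ℝ, 0 ≤ C ∧ ∀ (J : ℕ) (x : ℝ),
    ‖iteratedFDeriv ℝ n (Q J) x‖ ≤ C * (2 ^ J) ^ n := by
  induction n using Nat.strong_induction_on with
  | _ n ih =>
    rcases Nat.eq_zero_or_pos n with rfl | hn
    · refine ⟨1, zero_le_one, fun J x => ?_⟩
      rw [norm_iteratedFDeriv_zero]
      simpa using Q_abs_le J x
    · choose! C hC0 hC using ih
      choose M hM using fun i => bdd_of_per m_contDiff m_per i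
      have hM0 : ∀ i, 0 ≤ M i := fun i => (norm_nonneg _).trans (hM i 0)
      set D : ℝ := ∑ i ∈ Finset.range n, (n.choose i : ℝ) * C i * M (n - i) with hD
      have hD0 : 0 ≤ D := Finset.sum_nonneg fun i hi =>
        mul_nonneg (mul_nonneg (Nat.cast_nonneg _) (hC0 i (Finset.mem_range.1 hi))) (hM0 _)
      refine ⟨D, hD0, fun J => ?_⟩
      induction J with
      | zero =>
        intro x
        have h1 : Q 0 = fun _ => (1:ℝ) := by
          ext z; simp [Q]
        rw [h1, norm_iteratedFDeriv_eq_norm_iteratedDeriv, iteratedDeriv_const, if_neg hn.ne']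
        simpa using hD0
      | succ J ihJ =>
        intro x
        have h1 : Q (J + 1) = fun z => Q J z * m (2 ^ J * z) := by
          ext z; unfold Q; rw [Finset.prod_range_succ]
        have hmJ : ContDiff ℝ (⊤ : ℕ∞) (fun z : ℝ => m (2 ^ J * z)) :=
          m_contDiff.comp (contDiff_const.mul contDiff_id)
        rw [h1]
        refine (norm_iteratedFDeriv_mul_le (N := ((⊤ : ℕ∞) : WithTop ℕ∞)) (Q_contDiff J) hmJ x
          (by exact_mod_cast le_top)).trans ?_
        rw [Finset.sum_range_succ]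
        have h2 : ∀ i ∈ Finset.range n, (n.choose i : ℝ) * ‖iteratedFDeriv ℝ i (Q J) x‖ *
            ‖iteratedFDeriv ℝ (n - i) (fun z : ℝ => m (2 ^ J * z)) x‖ ≤
            (n.choose i : ℝ) * C i * M (n - i) * (2 ^ J) ^ n := by
          intro i hi
          rw [Finset.mem_range] at hi
          rw [scale_bd m_contDiff, abs_of_pos (by positivity : (0:ℝ) < 2 ^ J)]
          have h3 := hC i hi J x
          have h4 := hM (n - i) (2 ^ J * x)
          have h5 : ((2:ℝ) ^ J) ^ n = (2 ^ J) ^ i * (2 ^ J) ^ (n - i) := by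
            rw [← pow_add]; congr 1; omega
          rw [h5]
          calc (n.choose i : ℝ) * ‖iteratedFDeriv ℝ i (Q J) x‖ *
                ((2 ^ J) ^ (n - i) * ‖iteratedFDeriv ℝ (n - i) m (2 ^ J * x)‖)
              ≤ (n.choose i : ℝ) * (C i * (2 ^ J) ^ i) * ((2 ^ J) ^ (n - i) * M (n - i)) := by
                have := hC0 i hi
                gcongr
            _ = _ := by ring
        have h3 := Finset.sum_le_sum h2
        rw [← Finset.sum_mul, ← hD] at h3
        have h4 : (n.choose n : ℝ) * ‖iteratedFDeriv ℝ n (Q J) x‖ *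
            ‖iteratedFDeriv ℝ (n - n) (fun z : ℝ => m (2 ^ J * z)) x‖ ≤ D * (2 ^ J) ^ n := by
          rw [Nat.choose_self, Nat.cast_one, one_mul, Nat.sub_self, norm_iteratedFDeriv_zero]
          calc _ ≤ (D * (2 ^ J) ^ n) * 1 :=
                mul_le_mul (ihJ x) (m_abs_le _) (abs_nonneg _) (by positivity)
            _ = _ := mul_one _
        have h5 : 2 * (((2:ℝ) ^ J) ^ n) ≤ (2 ^ (J + 1)) ^ n := by
          rw [pow_succ, mul_pow, mul_comm]
          apply mul_le_mul_of_nonneg_left _ (by positivity)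
          calc (2:ℝ) = 2 ^ 1 := (pow_one _).symm
            _ ≤ 2 ^ n := pow_le_pow_right₀ (by norm_num) hn
        have h6 := mul_le_mul_of_nonneg_left h5 hD0
        linarith

/-- flat functions -/
theorem flat (p : ℝ) (N : ℕ) : ∀ f : ℝ → ℝ, ContDiff ℝ (⊤ : ℕ∞) f → (∀ n, iteratedDeriv n f p = 0) →
    ∃ C : ℝ, 0 ≤ C ∧ ∀ x ∈ Set.Icc (p - 1) p, |f x| ≤ C * (p - x) ^ N := by
  induction N with
  | zero =>
    intro f hf _
    obtain ⟨C, hC⟩ := (isCompact_Icc (a := p - 1) (b := p)).exists_bound_of_continuousOn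
      hf.continuous.continuousOn
    refine ⟨max C 0, le_max_right _ _, fun x hx => ?_⟩
    rw [pow_zero, mul_one]
    exact (hC x hx).trans (le_max_left _ _)
  | succ N ih =>
    intro f hf hp
    have hf' : ContDiff ℝ (⊤ : ℕ∞) (deriv f) := by
      have h0 : ContDiff ℝ ((⊤ : ℕ∞) + 1) f := by simpa using hf
      exact (contDiff_succ_iff_deriv.1 h0).2.2
    obtain ⟨C, hC0, hC⟩ := ih (deriv f) hf' (fun n => by
      have := hp (n + 1)
      rwa [iteratedDeriv_succ'] at this)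
    refine ⟨C, hC0, fun x hx => ?_⟩
    have hd : Differentiable ℝ f := hf.differentiable (by simp)
    have h1 : ‖f x - f p‖ ≤ C * (p - x) ^ N * ‖x - p‖ := by
      apply Convex.norm_image_sub_le_of_norm_deriv_le (s := Set.Icc x p)
        (fun z _ => hd z) _ (convex_Icc _ _) (Set.right_mem_Icc.2 hx.2) (Set.left_mem_Icc.2 hx.2)
      intro z hz
      have h2 := hC z ⟨hx.1.trans hz.1, hz.2⟩
      refine h2.trans (mul_le_mul_of_nonneg_left ?_ hC0)
      apply pow_le_pow_left₀ (by linarith [hz.2]) (by linarith [hz.1])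
    have h2 : f p = 0 := by simpa using hp 0
    rw [h2, sub_zero, Real.norm_eq_abs, Real.norm_eq_abs, abs_sub_comm x p,
      abs_of_nonneg (by linarith [hx.2] : (0:ℝ) ≤ p - x)] at h1
    rw [pow_succ]
    linarith

theorem deriv_zero_of_right {f : ℝ → ℝ} (hf : ContDiff ℝ (⊤ : ℕ∞) f) {p δ : ℝ} (hδ : 0 < δ)
    (h : ∀ y, p ≤ y → y ≤ p + δ → f y = 0) (n : ℕ) : iteratedDeriv n f p = 0 := by
  have hc : Continuous (iteratedDeriv n f) := hf.continuous_iteratedDeriv n (by exact_mod_cast le_top)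
  have h1 : ∀ y ∈ Set.Ioo p (p + δ), iteratedDeriv n f y = 0 := by
    intro y hy
    have h2 : f =ᶠ[𝓝 y] fun _ => (0:ℝ) := by
      filter_upwards [isOpen_Ioo.mem_nhds hy] with z hz
      exact h z hz.1.le hz.2.le
    rw [h2.iteratedDeriv_eq n]
    rw [iteratedDeriv_const]
    simp
  have h3 : Tendsto (iteratedDeriv n f) (𝓝[>] p) (𝓝 (iteratedDeriv n f p)) :=
    (hc.tendsto p).mono_left nhdsWithin_le_nhds
  have h4 : Tendsto (iteratedDeriv n f) (𝓝[>] p) (𝓝 0) := by
    apply tendsto_const_nhds.congr'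
    filter_upwards [Ioo_mem_nhdsGT (by linarith : p < p + δ)] with y hy
    exact (h1 y hy).symm
  exact tendsto_nhds_unique h3 h4

theorem g_zero_of_m {y : ℝ} (N : ℕ) (h : m (y / 2 ^ (N + 1)) = 0) : g y = 0 := by
  rw [g_scale (N + 1)]
  unfold P
  rw [Finset.prod_range_succ, h]
  simp

theorem g_flat_pos (n : ℕ) : iteratedDeriv n g (4 / 3) = 0 := by
  apply deriv_zero_of_right g_contDiff one_pos
  intro y h1 h2
  apply g_zero_of_m 1
  apply m_zero <;> norm_num <;> linarith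

theorem g_flat_neg (n : ℕ) : iteratedDeriv n g (-(4 / 3)) = 0 := by
  apply deriv_zero_of_right g_contDiff (δ := 1 / 2) (by norm_num)
  intro y h1 h2
  apply g_zero_of_m 0
  rw [← m_int _ 1]
  apply m_zero <;> norm_num <;> linarith

/-- states -/
def StA (p x : ℝ) (J : ℕ) : Prop := ∃ n : ℤ, 2 ^ J * p = n + 1 / 3 ∧ 0 < p - x ∧ 2 ^ J * (p - x) < 1 / 6
def StB (p x : ℝ) (J : ℕ) : Prop := ∃ n : ℤ, 2 ^ J * p = n - 1 / 3 ∧ 0 < p - x ∧ 2 ^ J * (p - x) < 1 / 3

theorem StA.next {p x : ℝ} {J : ℕ} (h : StA p x J) : StB p x (J + 1) := by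
  obtain ⟨n, h1, h2, h3⟩ := h
  refine ⟨2 * n + 1, ?_, h2, ?_⟩
  · rw [pow_succ, mul_comm ((2:ℝ) ^ J) 2, mul_assoc, h1]
    push_cast; ring
  · rw [pow_succ]; linarith

theorem StB.next {p x : ℝ} {J : ℕ} (h : StB p x J) (hm : m (2 ^ J * x) ≠ 0) : StA p x (J + 1) := by
  obtain ⟨n, h1, h2, h3⟩ := h
  have hpos : (0:ℝ) < 2 ^ J := by positivity
  have h4 : 0 < 2 ^ J * (p - x) := mul_pos hpos h2
  have h5 : 2 ^ J * (p - x) < 1 / 12 := by
    by_contra hcon
    rw [not_lt] at hcon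
    apply hm
    have h6 : (2:ℝ) ^ J * x = (2 / 3 - 2 ^ J * (p - x)) + ((n - 1 : ℤ) : ℝ) := by
      push_cast
      rw [mul_sub, h1]; ring
    rw [h6, m_int]
    apply m_zero <;> linarith
  refine ⟨2 * n - 1, ?_, h2, ?_⟩
  · rw [pow_succ, mul_comm ((2:ℝ) ^ J) 2, mul_assoc, h1]
    push_cast; ring
  · rw [pow_succ]; linarith

theorem supp_pos (J : ℕ) {x : ℝ} (h1 : 7 / 8 ≤ x) (h2 : x ≤ 9 / 4) (hg : g (2 ^ J * x) ≠ 0) :
    StA (4 / 3) x J ∨ StB (4 / 3) x J := by
  induction J with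
  | zero =>
    left
    rw [pow_zero, one_mul] at hg
    have h3 : x / 4 < 1 / 3 := by
      by_contra hcon
      apply hg
      apply g_zero_of_m 1
      apply m_zero <;> norm_num <;> linarith
    have h4 : 7 / 12 < x / 2 := by
      by_contra hcon
      apply hg
      apply g_zero_of_m 0
      apply m_zero <;> norm_num <;> linarith
    refine ⟨1, by norm_num, by linarith, ?_⟩
    rw [pow_zero]
    linarith
  | succ J ih =>
    have h3 : (2:ℝ) ^ (J + 1) * x = 2 * (2 ^ J * x) := by rw [pow_succ]; ring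
    rw [h3, g_two] at hg
    rcases ih (right_ne_zero_of_mul hg) with h | h
    · exact Or.inr h.next
    · exact Or.inl (h.next (left_ne_zero_of_mul hg))

theorem supp_neg (J : ℕ) {x : ℝ} (h1 : -(9 / 4) ≤ x) (h2 : x ≤ -(7 / 8)) (hg : g (2 ^ J * x) ≠ 0) :
    StA (-(4 / 3)) x J ∨ StB (-(4 / 3)) x J := by
  induction J with
  | zero =>
    right
    rw [pow_zero, one_mul] at hg
    have h3 : 7 / 12 < x / 4 + 1 := by
      by_contra hcon
      apply hg
      apply g_zero_of_m 1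
      rw [← m_int _ 1]
      apply m_zero <;> norm_num <;> linarith
    have h4 : x / 2 + 1 < 1 / 3 := by
      by_contra hcon
      apply hg
      apply g_zero_of_m 0
      rw [← m_int _ 1]
      apply m_zero <;> norm_num <;> linarith
    refine ⟨-1, by norm_num, by linarith, ?_⟩
    rw [pow_zero]
    linarith
  | succ J ih =>
    have h3 : (2:ℝ) ^ (J + 1) * x = 2 * (2 ^ J * x) := by rw [pow_succ]; ring
    rw [h3, g_two] at hg
    rcases ih (right_ne_zero_of_mul hg) with h | h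
    · exact Or.inr h.next
    · exact Or.inl (h.next (left_ne_zero_of_mul hg))

/-- location of the support -/
theorem supp (J : ℕ) {x : ℝ} (h1 : 7 / 8 ≤ |x|) (h2 : |x| ≤ 9 / 4) (hg : g (2 ^ J * x) ≠ 0) :
    ∃ p : ℝ, (p = 4 / 3 ∨ p = -(4 / 3)) ∧ 0 < p - x ∧ 2 ^ J * (p - x) < 1 / 3 := by
  rcases le_total 0 x with h | h
  · rw [abs_of_nonneg h] at h1 h2
    refine ⟨4 / 3, Or.inl rfl, ?_⟩
    rcases supp_pos J h1 h2 hg with ⟨n, a, b, c⟩ | ⟨n, a, b, c⟩
    · exact ⟨b, by linarith⟩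
    · exact ⟨b, c⟩
  · rw [abs_of_nonpos h] at h1 h2
    refine ⟨-(4 / 3), Or.inr rfl, ?_⟩
    rcases supp_neg J (by linarith) (by linarith) hg with ⟨n, a, b, c⟩ | ⟨n, a, b, c⟩
    · exact ⟨b, by linarith⟩
    · exact ⟨b, c⟩

end Pool.Agent.R579.SW
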