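import Pool.Agent.R579.SWb

set_option autoImplicit false
open Filter Topology

namespace Pool.Agent.R579.SW

theorem iter_iter (k i : ℕ) (f : ℝ → ℝ) : iteratedDeriv k (iteratedDeriv i f) = iteratedDeriv (k + i) f := by
  rw [iteratedDeriv_eq_iterate, iteratedDeriv_eq_iterate, iteratedDeriv_eq_iterate,
    Function.iterate_add_apply]

theorem iter_smooth (i : ℕ) {f : ℝ → ℝ} (hf : ContDiff ℝ (⊤ : ℕ∞) f) :
    ContDiff ℝ (⊤ : ℕ∞) (iteratedDeriv i f) := by
  rw [iteratedDeriv_eq_iterate]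
  exact ContDiff.iterate_deriv i hf

theorem flat_g (i N : ℕ) : ∃ K : ℝ, 0 ≤ K ∧ ∀ p x : ℝ, (p = 4 / 3 ∨ p = -(4 / 3)) →
    0 ≤ p - x → p - x ≤ 1 → ‖iteratedFDeriv ℝ i g x‖ ≤ K * (p - x) ^ N := by
  obtain ⟨K1, h1, h1'⟩ := flat (4 / 3) N (iteratedDeriv i g) (iter_smooth i g_contDiff)
    (fun k => by rw [iter_iter]; exact g_flat_pos _)
  obtain ⟨K2, h2, h2'⟩ := flat (-(4 / 3)) N (iteratedDeriv i g) (iter_smooth i g_contDiff)
    (fun k => by rw [iter_iter]; exact g_flat_neg _)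
  refine ⟨max K1 K2, le_max_of_le_left h1, fun p x hp ha hb => ?_⟩
  rw [norm_iteratedFDeriv_eq_norm_iteratedDeriv]
  have hpow : 0 ≤ (p - x) ^ N := pow_nonneg ha _
  rcases hp with rfl | rfl
  · exact (h1' x ⟨by linarith, by linarith⟩).trans (mul_le_mul_of_nonneg_right (le_max_left _ _) hpow)
  · exact (h2' x ⟨by linarith, by linarith⟩).trans (mul_le_mul_of_nonneg_right (le_max_right _ _) hpow)

theorem near_bd (n N : ℕ) : ∃ C : ℝ, 0 ≤ C ∧ ∀ (J : ℕ) (x : ℝ), 1 ≤ |x| → |x| ≤ 2 →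
    ‖iteratedFDeriv ℝ n (fun z => g (2 ^ J * z)) x‖ * (2 ^ J) ^ N ≤ C * (2 ^ J) ^ n := by
  choose C hC0 hC using Q_bd
  choose K hK0 hK using fun i => flat_g i N
  refine ⟨∑ i ∈ Finset.range (n + 1), (n.choose i : ℝ) * C i * K (n - i),
    Finset.sum_nonneg fun i _ => mul_nonneg (mul_nonneg (Nat.cast_nonneg _) (hC0 i)) (hK0 _), ?_⟩
  intro J x h1 h2
  have hpos : (0:ℝ) < 2 ^ J := by positivity
  have hone : (1:ℝ) ≤ 2 ^ J := one_le_pow₀ (by norm_num)
  by_cases hx : ∃ p : ℝ, (p = 4 / 3 ∨ p = -(4 / 3)) ∧ 0 ≤ p - x ∧ 2 ^ J * (p - x) ≤ 1 / 3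
  · obtain ⟨p, hp, ha, hb⟩ := hx
    have hb1 : p - x ≤ 1 := by nlinarith
    have h3 : (fun z => g (2 ^ J * z)) = fun z => Q J z * g z := by
      ext z; exact g_pow J z
    rw [h3]
    have h4 := norm_iteratedFDeriv_mul_le (N := ((⊤ : ℕ∞) : WithTop ℕ∞)) (Q_contDiff J) g_contDiff x
      (n := n) (by exact_mod_cast le_top)
    have h5 : ∀ i ∈ Finset.range (n + 1), (n.choose i : ℝ) * ‖iteratedFDeriv ℝ i (Q J) x‖ *
        ‖iteratedFDeriv ℝ (n - i) g x‖ * (2 ^ J) ^ N ≤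
        (n.choose i : ℝ) * C i * K (n - i) * (2 ^ J) ^ n := by
      intro i hi
      rw [Finset.mem_range] at hi
      have h6 := hC i J x
      have h7 := hK (n - i) p x hp ha hb1
      have h8 : (p - x) ^ N * (2 ^ J) ^ N ≤ 1 := by
        rw [← mul_pow]
        apply pow_le_one₀ (mul_nonneg ha hpos.le)
        linarith
      have h9 : ((2:ℝ) ^ J) ^ i ≤ (2 ^ J) ^ n := pow_le_pow_right₀ hone (by omega)
      calc (n.choose i : ℝ) * ‖iteratedFDeriv ℝ i (Q J) x‖ *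
            ‖iteratedFDeriv ℝ (n - i) g x‖ * (2 ^ J) ^ N
          ≤ (n.choose i : ℝ) * (C i * (2 ^ J) ^ i) * (K (n - i) * (p - x) ^ N) * (2 ^ J) ^ N := by
            have := hC0 i
            gcongr
        _ = ((n.choose i : ℝ) * C i * K (n - i)) * ((2 ^ J) ^ i * ((p - x) ^ N * (2 ^ J) ^ N)) := by
            ring
        _ ≤ ((n.choose i : ℝ) * C i * K (n - i)) * ((2 ^ J) ^ n * 1) := by
            apply mul_le_mul_of_nonneg_left _
              (mul_nonneg (mul_nonneg (Nat.cast_nonneg _) (hC0 i)) (hK0 _))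
            apply mul_le_mul h9 h8 (by positivity) (by positivity)
        _ = _ := by ring
    have h6 := Finset.sum_le_sum h5
    rw [← Finset.sum_mul, ← Finset.sum_mul] at h6
    exact (mul_le_mul_of_nonneg_right h4 (by positivity)).trans h6
  · have h3 : (fun z => g (2 ^ J * z)) =ᶠ[𝓝 x] fun _ => (0:ℝ) := by
      by_contra hcon
      apply hx
      have h4 : ∃ᶠ z in 𝓝 x, g (2 ^ J * z) ≠ 0 := by
        rw [Filter.EventuallyEq, Filter.not_eventually] at hcon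
        exact hcon
      have h5 : ∀ᶠ z in 𝓝 x, 7 / 8 ≤ |z| ∧ |z| ≤ 9 / 4 := by
        have h6 : ∀ᶠ z in 𝓝 x, 7 / 8 < |z| :=
          (continuous_abs.tendsto x).eventually (lt_mem_nhds (by linarith))
        have h7 : ∀ᶠ z in 𝓝 x, |z| < 9 / 4 :=
          (continuous_abs.tendsto x).eventually (gt_mem_nhds (by linarith))
        filter_upwards [h6, h7] with z a b using ⟨a.le, b.le⟩
      have h6 : ∃ᶠ z in 𝓝 x, z ∈ ({z | 0 ≤ 4 / 3 - z ∧ 2 ^ J * (4 / 3 - z) ≤ 1 / 3} ∪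
          {z : ℝ | 0 ≤ -(4 / 3) - z ∧ 2 ^ J * (-(4 / 3) - z) ≤ 1 / 3}) := by
        refine (h4.and_eventually h5).mono ?_
        rintro z ⟨hz, hz1, hz2⟩
        obtain ⟨p, hp, a, b⟩ := supp J hz1 hz2 hz
        rcases hp with rfl | rfl
        · exact Or.inl ⟨a.le, b.le⟩
        · exact Or.inr ⟨a.le, b.le⟩
      have h7 : IsClosed ({z | 0 ≤ 4 / 3 - z ∧ 2 ^ J * (4 / 3 - z) ≤ 1 / 3} ∪
          {z : ℝ | 0 ≤ -(4 / 3) - z ∧ 2 ^ J * (-(4 / 3) - z) ≤ 1 / 3}) := by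
        have hcl : ∀ p : ℝ, IsClosed {z : ℝ | 0 ≤ p - z ∧ 2 ^ J * (p - z) ≤ 1 / 3} := fun p => by
          have e1 : IsClosed {z : ℝ | 0 ≤ p - z} :=
            isClosed_le continuous_const (continuous_const.sub continuous_id)
          have e2 : IsClosed {z : ℝ | 2 ^ J * (p - z) ≤ 1 / 3} :=
            isClosed_le (continuous_const.mul (continuous_const.sub continuous_id)) continuous_const
          exact e1.inter e2
        exact (hcl _).union (hcl _)
      have h8 := h7.closure_eq ▸ mem_closure_iff_frequently.2 h6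
      rcases h8 with h8 | h8
      · exact ⟨4 / 3, Or.inl rfl, h8⟩
      · exact ⟨-(4 / 3), Or.inr rfl, h8⟩
    rw [norm_iteratedFDeriv_eq_norm_iteratedDeriv, h3.iteratedDeriv_eq n, iteratedDeriv_const]
    have : ‖(if n = 0 then (0:ℝ) else 0)‖ = 0 := by simp
    rw [this, zero_mul]
    apply mul_nonneg _ (by positivity)
    exact Finset.sum_nonneg fun i _ => mul_nonneg (mul_nonneg (Nat.cast_nonneg _) (hC0 i)) (hK0 _)

theorem g_decay (k n : ℕ) : ∃ C : ℝ, ∀ y : ℝ, ‖y‖ ^ k * ‖iteratedFDeriv ℝ n g y‖ ≤ C := by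
  obtain ⟨C, hC0, hC⟩ := near_bd n k
  have hc : Continuous (fun y : ℝ => ‖y‖ ^ k * ‖iteratedFDeriv ℝ n g y‖) :=
    (continuous_norm.pow _).mul (g_contDiff.continuous_iteratedFDeriv (by exact_mod_cast le_top)).norm
  obtain ⟨C1, hC1⟩ := (isCompact_Icc (a := (-1:ℝ)) (b := 1)).exists_bound_of_continuousOn
    hc.continuousOn
  refine ⟨max C1 (2 ^ k * C), fun y => ?_⟩
  rcases le_total 1 |y| with h | h
  · obtain ⟨J, hJ1, hJ2⟩ := exists_nat_pow_near h (by norm_num : (1:ℝ) < 2)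
    have hpos : (0:ℝ) < 2 ^ J := by positivity
    refine le_max_of_le_right ?_
    have h1 := hC J (y / 2 ^ J) (by rw [abs_div, abs_of_pos hpos, le_div_iff₀ hpos]; linarith)
      (by rw [abs_div, abs_of_pos hpos, div_le_iff₀ hpos]; rw [pow_succ] at hJ2; linarith)
    rw [scale_bd g_contDiff, abs_of_pos hpos, mul_div_cancel₀ _ hpos.ne'] at h1
    have h2 : ‖iteratedFDeriv ℝ n g y‖ * (2 ^ J) ^ k ≤ C := by
      have hp : (0:ℝ) < (2 ^ J) ^ n := by positivity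
      have h3 : (2 ^ J) ^ n * (‖iteratedFDeriv ℝ n g y‖ * (2 ^ J) ^ k) ≤ (2 ^ J) ^ n * C := by
        calc _ = (2 ^ J) ^ n * ‖iteratedFDeriv ℝ n g y‖ * (2 ^ J) ^ k := by ring
          _ ≤ C * (2 ^ J) ^ n := h1
          _ = _ := mul_comm _ _
      exact le_of_mul_le_mul_left h3 hp
    calc ‖y‖ ^ k * ‖iteratedFDeriv ℝ n g y‖ ≤ (2 ^ (J + 1)) ^ k * ‖iteratedFDeriv ℝ n g y‖ := by
          apply mul_le_mul_of_nonneg_right _ (norm_nonneg _)
          exact pow_le_pow_left₀ (norm_nonneg _) hJ2.le _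
      _ = 2 ^ k * (‖iteratedFDeriv ℝ n g y‖ * (2 ^ J) ^ k) := by
          rw [pow_succ, mul_pow]; ring
      _ ≤ 2 ^ k * C := mul_le_mul_of_nonneg_left h2 (by positivity)
  · refine le_max_of_le_left ?_
    have := hC1 y (abs_le.1 h)
    rwa [Real.norm_of_nonneg (by positivity)] at this

/-- the scaling function as a Schwartz function -/
noncomputable def gS : SchwartzMap ℝ ℝ where
  toFun := g
  smooth' := g_contDiff
  decay' k n := g_decay k n

/-- the high pass filter -/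
noncomputable def h (y : ℝ) : ℂ := Complex.exp (2 * Real.pi * Complex.I * y) * ((m (y + 1 / 2) : ℝ) : ℂ)

theorem h_contDiff : ContDiff ℝ (⊤ : ℕ∞) h := by
  unfold h
  apply ContDiff.mul
  · apply Complex.contDiff_exp.comp
    apply ContDiff.mul contDiff_const
    exact Complex.ofRealCLM.contDiff
  · exact Complex.ofRealCLM.contDiff.comp (m_contDiff.comp (contDiff_id.add contDiff_const))

theorem h_per (y : ℝ) : h (y + 1) = h y := by
  unfold h
  have h1 : y + 1 + 1 / 2 = y + 1 / 2 + 1 := by ring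
  have h2 : 2 * (Real.pi : ℂ) * Complex.I * ((y + 1 : ℝ) : ℂ) =
      2 * (Real.pi : ℂ) * Complex.I * (y : ℂ) + 2 * Real.pi * Complex.I := by
    push_cast; ring
  rw [h1, m_per, h2, Complex.exp_add, Complex.exp_two_pi_mul_I, mul_one]

theorem h_temp : h.HasTemperateGrowth := by
  refine ⟨h_contDiff, fun n => ?_⟩
  obtain ⟨C, hC⟩ := bdd_of_per h_contDiff h_per n
  refine ⟨0, C, fun x => ?_⟩
  simpa using hC x

end Pool.Agent.R579.SW
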