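import Pool.Agent.R579.SWc

set_option autoImplicit false
open Filter Topology

namespace Pool.Agent.R579.SW

theorem P_succ (N : ℕ) (y : ℝ) : P (N + 1) y = P N y * m (y / 2 ^ (N + 1)) := by
  unfold P; rw [Finset.prod_range_succ]

theorem P_per (N : ℕ) (y : ℝ) : P N (y + 2 ^ N) = P N y := by
  unfold P
  apply Finset.prod_congr rfl
  intro j hj
  rw [Finset.mem_range] at hj
  have h1 : (y + 2 ^ N) / 2 ^ (j + 1) = y / 2 ^ (j + 1) + ((2 ^ (N - (j + 1)) : ℤ) : ℝ) := by
    rw [add_div]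
    congr 1
    push_cast
    rw [div_eq_iff (by positivity), ← pow_add]
    congr 1
    omega
  rw [h1, m_int]

theorem P_sum (N : ℕ) : ∀ y : ℝ, ∑ i ∈ Finset.range (2 ^ N), P N (y + i) ^ 2 = 1 := by
  induction N with
  | zero => intro y; simp [P]
  | succ N ih =>
    intro y
    have h1 : 2 ^ (N + 1) = 2 ^ N + 2 ^ N := by ring
    rw [h1, Finset.sum_range_add, ← Finset.sum_add_distrib, ← ih y]
    apply Finset.sum_congr rfl
    intro i _
    have h2 : y + ((2 ^ N + i : ℕ) : ℝ) = y + i + 2 ^ N := by push_cast; ring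
    rw [h2, P_succ, P_succ, P_per]
    have h3 : (y + i + 2 ^ N) / 2 ^ (N + 1) = (y + i) / 2 ^ (N + 1) + 1 / 2 := by
      rw [pow_succ]; field_simp
    rw [h3]
    have h4 := m_qmf ((y + i) / 2 ^ (N + 1))
    calc _ = P N (y + i) ^ 2 * (m ((y + i) / 2 ^ (N + 1)) ^ 2 + m ((y + i) / 2 ^ (N + 1) + 1 / 2) ^ 2) := by
          ring
      _ = _ := by rw [h4, mul_one]

theorem P_sum_int (N : ℕ) (y : ℝ) :
    ∑ n ∈ Finset.Ico (-2 ^ N : ℤ) (2 ^ N), P (N + 1) (y + n) ^ 2 = 1 := by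
  rw [← P_sum (N + 1) (y - 2 ^ N), Int.Ico_eq_finset_map, Finset.sum_map]
  have h1 : ((2 ^ N : ℤ) - -2 ^ N).toNat = 2 ^ (N + 1) := by
    have : ((2 ^ N : ℤ) - -2 ^ N) = ((2 ^ (N + 1) : ℕ) : ℤ) := by push_cast; ring
    rw [this, Int.toNat_natCast]
  rw [h1]
  apply Finset.sum_congr rfl
  intro i _
  congr 2
  simp
  ring

theorem g_low : ∃ c : ℝ, 0 < c ∧ ∀ z : ℝ, |z| ≤ 1 / 2 → c ≤ |g z| := by
  obtain ⟨z0, hz0, hmin⟩ := (isCompact_Icc (a := (-(1/2):ℝ)) (b := 1/2)).exists_isMinOn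
    ⟨0, by norm_num, by norm_num⟩ (g_contDiff.continuous.abs.continuousOn)
  refine ⟨|g z0|, ?_, fun z hz => hmin (abs_le.1 hz)⟩
  rw [abs_pos]
  have h1 : g z0 = P 2 z0 := by
    apply g_eq
    have : |z0| ≤ 1 / 2 := abs_le.2 hz0
    linarith
  rw [h1]
  unfold P
  rw [Finset.prod_range_succ, Finset.prod_range_succ, Finset.prod_range_zero, one_mul]
  obtain ⟨ha, hb⟩ := hz0
  apply mul_ne_zero
  · apply m_ne_zero <;> norm_num <;> linarith
  · apply m_ne_zero <;> norm_num <;> linarith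

open Classical in
/-- windowed squares -/
noncomputable def fN (N : ℕ) (y : ℝ) (n : ℤ) : ℝ :=
  if n ∈ Finset.Ico (-2 ^ N : ℤ) (2 ^ N) then P (N + 1) (y + n) ^ 2 else 0

theorem fN_nonneg (N : ℕ) (y : ℝ) (n : ℤ) : 0 ≤ fN N y n := by
  unfold fN; split_ifs <;> positivity

theorem fN_tsum (N : ℕ) (y : ℝ) : ∑' n, fN N y n = 1 := by
  rw [tsum_eq_sum (s := Finset.Ico (-2 ^ N : ℤ) (2 ^ N)), ← P_sum_int N y]
  · apply Finset.sum_congr rfl
    intro n hn
    unfold fN; rw [if_pos hn]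
  · intro n hn
    unfold fN; rw [if_neg hn]

theorem fN_sum_le (N : ℕ) (y : ℝ) (u : Finset ℤ) : ∑ n ∈ u, fN N y n ≤ 1 := by
  classical
  calc ∑ n ∈ u, fN N y n ≤ ∑ n ∈ u ∪ Finset.Ico (-2 ^ N : ℤ) (2 ^ N), fN N y n :=
        Finset.sum_le_sum_of_subset_of_nonneg Finset.subset_union_left fun n _ _ => fN_nonneg N y n
    _ = ∑ n ∈ Finset.Ico (-2 ^ N : ℤ) (2 ^ N), fN N y n := by
        symm
        apply Finset.sum_subset Finset.subset_union_right
        intro n _ hn
        unfold fN; rw [if_neg hn]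
    _ = 1 := by
        rw [← P_sum_int N y]
        apply Finset.sum_congr rfl
        intro n hn
        unfold fN; rw [if_pos hn]

theorem fN_tendsto (y : ℝ) (n : ℤ) : Tendsto (fun N => fN N y n) atTop (𝓝 (g (y + n) ^ 2)) := by
  apply tendsto_const_nhds.congr'
  obtain ⟨N1, h1⟩ := exists_pow (y + n)
  filter_upwards [eventually_ge_atTop N1, eventually_ge_atTop (n.natAbs + 1)] with N ha hb
  have h2 : 6 * |y + n| ≤ 2 ^ (N + 1) :=
    h1.trans (pow_le_pow_right₀ (by norm_num) (by omega))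
  rw [g_eq h2]
  unfold fN
  rw [if_pos]
  rw [Finset.mem_Ico]
  have h3 : (n.natAbs : ℤ) < 2 ^ N := by
    have : n.natAbs < 2 ^ n.natAbs := Nat.lt_two_pow_self
    have h4 : 2 ^ n.natAbs ≤ 2 ^ N := Nat.pow_le_pow_right (by norm_num) (by omega)
    exact_mod_cast this.trans_le h4
  constructor <;> omega

theorem g_hasSum_fract {y : ℝ} (h0 : 0 ≤ y) (h1 : y < 1) : HasSum (fun n : ℤ => g (y + n) ^ 2) 1 := by
  have hs : Summable (fun n : ℤ => g (y + n) ^ 2) := by
    apply summable_of_sum_le (c := 1) (fun n => sq_nonneg _)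
    intro u
    exact le_of_tendsto (tendsto_finsetSum u fun n _ => fN_tendsto y n)
      (Eventually.of_forall fun N => fN_sum_le N y u)
  obtain ⟨c, hc0, hc⟩ := g_low
  have hT := tendsto_tsum_of_dominated_convergence (f := fun N n => fN N y n)
    (g := fun n : ℤ => g (y + n) ^ 2) (bound := fun n : ℤ => g (y + n) ^ 2 / c ^ 2) (𝓕 := atTop)
    (hs.div_const _) (fun n => fN_tendsto y n) (Eventually.of_forall fun N n => by
      rw [Real.norm_of_nonneg (fN_nonneg _ _ _)]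
      unfold fN
      split_ifs with hn
      · rw [Finset.mem_Ico] at hn
        rw [le_div_iff₀ (by positivity), g_scale (N + 1) (y + n), mul_pow]
        apply mul_le_mul_of_nonneg_left _ (sq_nonneg _)
        rw [← sq_abs (g _)]
        apply pow_le_pow_left₀ hc0.le
        apply hc
        have hp : (0:ℝ) < 2 ^ (N + 1) := by positivity
        rw [abs_div, abs_of_pos hp, div_le_iff₀ hp, pow_succ, abs_le]
        have h2 : (-2 ^ N : ℝ) ≤ n := by exact_mod_cast hn.1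
        have h3 : (n : ℝ) + 1 ≤ 2 ^ N := by exact_mod_cast hn.2
        constructor <;> linarith
      · positivity)
  simp_rw [fN_tsum] at hT
  have h2 := tendsto_nhds_unique tendsto_const_nhds hT
  rw [h2]
  exact hs.hasSum

theorem g_hasSum (y : ℝ) : HasSum (fun n : ℤ => g (y + n) ^ 2) 1 := by
  have h1 := g_hasSum_fract (Int.fract_nonneg y) (Int.fract_lt_one y)
  rw [← (Equiv.addLeft ⌊y⌋).hasSum_iff] at h1
  convert h1 using 2 with n
  simp only [Function.comp, Equiv.coe_addLeft]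
  congr 2
  push_cast
  rw [← add_assoc, Int.fract_add_floor]

end Pool.Agent.R579.SW
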