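import Pool.Agent.R579.Gabor

set_option autoImplicit false

namespace Pool.Agent.R579.Orbit

open scoped InnerProductSpace ENNReal
open Filter MeasureTheory

variable {F : Type*} [NormedAddCommGroup F] [InnerProductSpace ℂ F]

lemma bddShift_of_riesz {ι : Type*} (f : ι → F) (hf : IsRieszBasis f) (next : ι → ι)
    (hn : Function.Injective next) : BddShift next f := by
  obtain ⟨-, A, B, hA, hB, h⟩ := hf
  have hli : LinearIndependent ℂ f := by
    rw [linearIndependent_iff]
    intro c hc
    have h1 := (h c).1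
    rw [Finsupp.linearCombination_apply] at hc
    rw [hc, norm_zero] at h1
    have h2 : c.sum (fun _ z => ‖z‖ ^ 2) ≤ 0 := by
      by_contra h3
      push Not at h3
      have := mul_pos hA h3
      simp at h1
      linarith
    have h3 : ∑ k ∈ c.support, ‖c k‖ ^ 2 ≤ 0 := h2
    have h4 : ∑ k ∈ c.support, ‖c k‖ ^ 2 = 0 := le_antisymm h3 (Finset.sum_nonneg fun _ _ => by positivity)
    rw [Finset.sum_eq_zero_iff_of_nonneg (fun _ _ => by positivity)] at h4
    ext k
    by_cases hk : k ∈ c.support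
    · have := h4 k hk
      simpa using this
    · exact Finsupp.notMem_support_iff.1 hk
  let bs := Module.Basis.span hli
  let T0 := bs.constr ℂ (fun k => f (next k))
  have hT0 : ∀ k, T0 ⟨f k, Submodule.subset_span ⟨k, rfl⟩⟩ = f (next k) := by
    intro k
    have h1 : (⟨f k, Submodule.subset_span ⟨k, rfl⟩⟩ : Submodule.span ℂ (Set.range f)) = bs k := by
      ext
      rw [Module.Basis.span_apply]
    rw [h1]
    exact bs.constr_basis ℂ _ k
  have hbd : ∀ s, ‖T0 s‖ ≤ Real.sqrt (B / A) * ‖s‖ := by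
    intro s
    have h1 : T0 s = (bs.repr s).sum (fun k z => z • f (next k)) := by
      exact bs.constr_apply ℂ _ s
    have h2 : T0 s = ((bs.repr s).mapDomain next).sum (fun k z => z • f k) := by
      rw [h1, Finsupp.sum_mapDomain_index (by intro k; simp) (by intro k x y; exact add_smul _ _ _)]
    have h3 : ((bs.repr s).mapDomain next).sum (fun _ z => ‖z‖ ^ 2) = (bs.repr s).sum (fun _ z => ‖z‖ ^ 2) := by
      rw [Finsupp.sum_mapDomain_index_inj hn]
    have h4 : (s : F) = (bs.repr s).sum (fun k z => z • f k) := by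
      conv_lhs => rw [← bs.linearCombination_repr s]
      rw [Finsupp.linearCombination_apply, Finsupp.sum, Finsupp.sum]
      push_cast
      refine Finset.sum_congr rfl fun k _ => ?_
      rw [Module.Basis.span_apply]
    have h5 := (h ((bs.repr s).mapDomain next)).2
    rw [← h2, h3] at h5
    have h6 := (h (bs.repr s)).1
    rw [← h4] at h6
    apply le_of_sq_le_sq _ (by positivity)
    rw [mul_pow, Real.sq_sqrt (by positivity)]
    have h7 : (bs.repr s).sum (fun _ z => ‖z‖ ^ 2) ≤ ‖(s : F)‖ ^ 2 / A := by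
      rw [le_div_iff₀ hA]; linarith
    calc ‖T0 s‖ ^ 2 ≤ B * (bs.repr s).sum (fun _ z => ‖z‖ ^ 2) := h5
      _ ≤ B * (‖(s : F)‖ ^ 2 / A) := mul_le_mul_of_nonneg_left h7 hB.le
      _ = B / A * ‖s‖ ^ 2 := by rw [Submodule.coe_norm]; ring
  exact ⟨T0.mkContinuous _ hbd, fun k => hT0 k⟩

/-- The ordering `σ` is universal: it admits a bounded representation for every Gabor frame
that admits one in some ordering. -/
def Universal {I : Type*} (next : I → I) (σ : I ≃ ℤ × ℤ) : Prop :=
  ∀ (a b : ℝ) (g : L2R), 0 < a → 0 < b → g ≠ 0 → IsFrame (gabor a b g) →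
    (∃ τ : I ≃ ℤ × ℤ, BddShift next (gabor a b g ∘ τ)) → BddShift next (gabor a b g ∘ σ)

theorem universal_Z (σ : ℤ ≃ ℤ × ℤ) : Universal (fun k : ℤ => k + 1) σ := by
  rintro a b g - - - hf ⟨τ, hτ⟩
  have hR : IsRieszBasis (gabor a b g) := by
    by_contra hR
    exact gabor_Z a b g hf hR τ hτ
  exact bddShift_of_riesz _ (hR.comp σ) _ (fun x y h => by simpa using h)

theorem universal_N (σ : ℕ ≃ ℤ × ℤ) : Universal (fun k : ℕ => k + 1) σ := by
  rintro a b g - - - hf ⟨τ, hτ⟩
  have hR : IsRieszBasis (gabor a b g) := by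
    by_contra hR
    exact gabor_N a b g hf hR τ hτ
  exact bddShift_of_riesz _ (hR.comp σ) _ (fun x y h => by simpa using h)

end Pool.Agent.R579.Orbit
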